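import Mathlib

/-!
# Nikodym's uniform boundedness theorem for finitely additive functions on a power set
-/

namespace Pool.Agent.V11256.NikA

open Set

section Additive

variable {X : Type*}

/-- Finite additivity on a family given by a predicate. -/
def AddOn (P : Set X → Prop) (ν : Set X → ℝ) : Prop :=
  ∀ A B, P A → P B → Disjoint A B → ν (A ∪ B) = ν A + ν B

theorem AddOn.empty {P : Set X → Prop} {ν : Set X → ℝ} (h : AddOn P ν) (h0 : P ∅) : ν ∅ = 0 := by
  have := h ∅ ∅ h0 h0 (disjoint_empty ∅)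
  rw [union_empty] at this
  linarith

theorem AddOn.biUnion {P : Set X → Prop} {ν : Set X → ℝ} (h : AddOn P ν) (h0 : P ∅)
    (hu : ∀ A B, P A → P B → P (A ∪ B)) {ι : Type*} (D : ι → Set X) (t : Finset ι)
    (hP : ∀ i ∈ t, P (D i)) (hd : (t : Set ι).PairwiseDisjoint D) :
    P (⋃ i ∈ t, D i) ∧ ν (⋃ i ∈ t, D i) = ∑ i ∈ t, ν (D i) := by
  classical
  induction t using Finset.induction_on with
  | empty => simpa using ⟨h0, h.empty h0⟩
  | insert a t ha ih =>
    obtain ⟨h1, h2⟩ := ih (fun i hi => hP i (Finset.mem_insert_of_mem hi))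
      (hd.subset (by simp))
    rw [Finset.set_biUnion_insert, Finset.sum_insert ha]
    refine ⟨hu _ _ (hP a (Finset.mem_insert_self a t)) h1, ?_⟩
    rw [h _ _ (hP a (Finset.mem_insert_self a t)) h1, h2]
    rw [disjoint_iUnion₂_right]
    intro i hi
    exact hd (by simp) (by simp [hi]) (fun e => ha (e ▸ hi))

theorem AddOn.sum_abs_le {P : Set X → Prop} {ν : Set X → ℝ} (h : AddOn P ν) (h0 : P ∅)
    (hu : ∀ A B, P A → P B → P (A ∪ B)) {C : ℝ} (hC : ∀ A, P A → |ν A| ≤ C) {ι : Type*}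
    (D : ι → Set X) (t : Finset ι) (hP : ∀ i ∈ t, P (D i))
    (hd : (t : Set ι).PairwiseDisjoint D) : ∑ i ∈ t, |ν (D i)| ≤ 2 * C := by
  classical
  have h1 : ∑ i ∈ t, |ν (D i)| =
      ∑ i ∈ t.filter (fun i => 0 ≤ ν (D i)), ν (D i) -
        ∑ i ∈ t.filter (fun i => ¬ 0 ≤ ν (D i)), ν (D i) := by
    rw [← Finset.sum_filter_add_sum_filter_not t (fun i => 0 ≤ ν (D i)), sub_eq_add_neg,
      ← Finset.sum_neg_distrib]
    congr 1
    · refine Finset.sum_congr rfl fun i hi => ?_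
      exact abs_of_nonneg (Finset.mem_filter.mp hi).2
    · refine Finset.sum_congr rfl fun i hi => ?_
      exact abs_of_neg (not_le.mp (Finset.mem_filter.mp hi).2)
  have h2 : ∀ s ⊆ t, |∑ i ∈ s, ν (D i)| ≤ C := by
    intro s hs
    obtain ⟨e1, e2⟩ := h.biUnion h0 hu D s (fun i hi => hP i (hs hi)) (hd.subset (by exact_mod_cast hs))
    rw [← e2]
    exact hC _ e1
  have h3 := abs_le.mp (h2 _ (Finset.filter_subset (fun i => 0 ≤ ν (D i)) t))
  have h4 := abs_le.mp (h2 _ (Finset.filter_subset (fun i => ¬ 0 ≤ ν (D i)) t))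
  rw [h1]
  linarith [h3.2, h4.1]

/-- In a disjoint sequence there is a set on which a bounded additive function is small. -/
theorem exists_small {ν : Set X → ℝ} (h : ∀ A B, Disjoint A B → ν (A ∪ B) = ν A + ν B)
    {C : ℝ} (hC : ∀ A, |ν A| ≤ C) (G : ℕ → Set X) (hG : Pairwise fun i j => Disjoint (G i) (G j)) :
    ∃ i, ∀ D ⊆ G i, |ν D| ≤ 1 := by
  by_contra hcon
  push Not at hcon
  choose D hD hD1 using hcon
  obtain ⟨N, hN⟩ := exists_nat_gt (2 * C)
  have hadd : AddOn (fun _ : Set X => True) ν := fun A B _ _ hd => h A B hd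
  have h1 := hadd.sum_abs_le trivial (fun _ _ _ _ => trivial) (fun A _ => hC A) D
    (Finset.range N) (fun _ _ => trivial) (fun i _ j _ hij => (hG hij).mono (hD i) (hD j))
  have h2 : (N : ℝ) ≤ ∑ i ∈ Finset.range N, |ν (D i)| := by
    calc (N : ℝ) = ∑ i ∈ Finset.range N, (1 : ℝ) := by simp
      _ ≤ _ := Finset.sum_le_sum fun i _ => (hD1 i).le
  linarith

/-- The diagonal argument. -/
theorem exists_subseq (l : ℕ → Set X → ℝ)
    (h : ∀ n A B, Disjoint A B → l n (A ∪ B) = l n A + l n B)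
    (hC : ∀ n, ∃ C, ∀ A, |l n A| ≤ C) (F : ℕ → Set X)
    (hF : Pairwise fun i j => Disjoint (F i) (F j)) :
    ∃ K : Set ℕ, K.Infinite ∧ ∀ k ∈ K, |l k (⋃ i ∈ {i | i ∈ K ∧ k < i}, F i)| ≤ 1 := by
  have hstep : ∀ N : Set ℕ, ∃ N' : Set ℕ, N.Infinite → (N' ⊆ N ∧ N'.Infinite ∧
      (∀ x ∈ N', sInf N < x) ∧ ∀ D ⊆ ⋃ i ∈ N', F i, |l (sInf N) D| ≤ 1) := by
    intro N
    by_cases hN : N.Infinite
    · have hm : sInf N ∈ N := Nat.sInf_mem hN.nonempty
      have hN1 : (N \ {sInf N}).Infinite := hN.sdiff (finite_singleton _)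
      let g : ℕ ↪ (N \ {sInf N} : Set ℕ) := hN1.natEmbedding
      have hginj : Function.Injective fun n => (g n : ℕ) := fun a b hab =>
        g.injective (Subtype.ext hab)
      obtain ⟨C, hC⟩ := hC (sInf N)
      have hdis : Pairwise fun i j => Disjoint (⋃ k : ℕ, F (g (Nat.pair i k)))
          (⋃ k : ℕ, F (g (Nat.pair j k))) := by
        intro i j hij
        rw [disjoint_iUnion_left]
        intro k
        rw [disjoint_iUnion_right]
        intro k'
        refine hF fun e => hij ?_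
        have h1 : Nat.pair i k = Nat.pair j k' := hginj e
        exact (Nat.pair_eq_pair.mp h1).1
      obtain ⟨i, hi⟩ := exists_small (h (sInf N)) hC _ hdis
      refine ⟨range fun k => (g (Nat.pair i k) : ℕ), fun _ => ⟨?_, ?_, ?_, ?_⟩⟩
      · rintro _ ⟨k, rfl⟩
        exact (g (Nat.pair i k)).2.1
      · refine infinite_range_of_injective fun a b hab => ?_
        have h1 : Nat.pair i a = Nat.pair i b := hginj hab
        exact (Nat.pair_eq_pair.mp h1).2
      · rintro _ ⟨k, rfl⟩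
        refine lt_of_le_of_ne (Nat.sInf_le (g (Nat.pair i k)).2.1) fun e => ?_
        exact (g (Nat.pair i k)).2.2 e.symm
      · intro D hD
        refine hi D (hD.trans ?_)
        rw [biUnion_range]
    · exact ⟨∅, fun h => absurd h hN⟩
  choose nx hnx using hstep
  let S : ℕ → Set ℕ := fun j => Nat.rec univ (fun _ N => nx N) j
  have hS : ∀ j, (S j).Infinite := by
    intro j
    induction j with
    | zero => exact infinite_univ
    | succ j ih => exact (hnx (S j) ih).2.1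
  have hanti : Antitone S := antitone_nat_of_succ_le fun j => (hnx (S j) (hS j)).1
  let m : ℕ → ℕ := fun j => sInf (S j)
  have hm : ∀ j, m j ∈ S j := fun j => Nat.sInf_mem (hS j).nonempty
  have hmono : StrictMono m :=
    strictMono_nat_of_lt_succ fun j => (hnx (S j) (hS j)).2.2.1 _ (hm (j + 1))
  refine ⟨range m, infinite_range_of_injective hmono.injective, ?_⟩
  rintro _ ⟨j, rfl⟩
  refine (hnx (S j) (hS j)).2.2.2 _ ?_
  intro x hx
  rw [mem_iUnion₂] at hx ⊢
  obtain ⟨i, ⟨⟨j', rfl⟩, hlt⟩, hxi⟩ := hx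
  have hjj : j + 1 ≤ j' := hmono.lt_iff_lt.mp hlt
  exact ⟨m j', hanti hjj (hm j'), hxi⟩

/-- **Nikodym's theorem** for finitely additive functions on a power set. -/
theorem nikodym_powerset (ν : ℕ → Set X → ℝ)
    (hadd : ∀ n A B, Disjoint A B → ν n (A ∪ B) = ν n A + ν n B)
    (hbd : ∀ n, ∃ C, ∀ A, |ν n A| ≤ C)
    (hpt : ∀ A, ∃ C, ∀ n, |ν n A| ≤ C) : ∃ C, ∀ n A, |ν n A| ≤ C := by
  by_contra hcon
  push Not at hcon
  choose Bd hBd using hpt
  have hBd0 : ∀ A, 0 ≤ Bd A := fun A => (abs_nonneg _).trans (hBd A 0)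
  -- unbounded sets
  let Unb : Set X → Prop := fun E => ∀ C : ℝ, ∃ n, ∃ A ⊆ E, C < |ν n A|
  have hsplit : ∀ E A : Set X, A ⊆ E → Unb E → Unb A ∨ Unb (E \ A) := by
    intro E A hAE hE
    by_contra hno
    simp only [Unb] at hno
    push Not at hno
    obtain ⟨⟨C1, h1⟩, ⟨C2, h2⟩⟩ := hno
    obtain ⟨n, D, hD, hD1⟩ := hE (C1 + C2)
    have e1 := h1 n (D ∩ A) inter_subset_right
    have e2 := h2 n (D \ A) (sdiff_subset_sdiff_left hD)
    have e3 := hadd n (D ∩ A) (D \ A) disjoint_inf_sdiff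
    rw [inter_union_sdiff] at e3
    rw [e3] at hD1
    have := abs_add_le (ν n (D ∩ A)) (ν n (D \ A))
    linarith
  have hstep : ∀ (E : {E : Set X // Unb E}) (p : ℝ), ∃ (E' : {E : Set X // Unb E}) (n : ℕ),
      E'.1 ⊆ E.1 ∧ p ≤ |ν n (E.1 \ E'.1)| := by
    rintro ⟨E, hE⟩ p
    obtain ⟨n, A, hA, hA1⟩ := hE (max p 0 + Bd E)
    have e3 := hadd n A (E \ A) disjoint_sdiff_right
    rw [union_sdiff_cancel hA] at e3
    have e4 := hBd E n
    have e5 : max p 0 ≤ |ν n (E \ A)| := by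
      have : ν n A = ν n E - ν n (E \ A) := by linarith
      rw [this] at hA1
      have := abs_sub (ν n E) (ν n (E \ A))
      linarith
    have e6 : p ≤ |ν n A| := by
      have := hBd0 E
      have := le_max_left p 0
      linarith
    rcases hsplit E A hA hE with h | h
    · exact ⟨⟨A, h⟩, n, hA, (le_max_left p 0).trans e5⟩
    · refine ⟨⟨E \ A, h⟩, n, sdiff_subset, ?_⟩
      show p ≤ |ν n (E \ (E \ A))|
      rw [sdiff_sdiff_cancel_left hA]
      exact e6
  choose nE nn hsub hval using hstep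
  have huniv : Unb univ := fun C => by
    obtain ⟨n, A, h⟩ := hcon C
    exact ⟨n, A, subset_univ A, h⟩
  -- the sequence
  let st : ℕ → {E : Set X // Unb E} × ℝ := fun k => Nat.rec (⟨univ, huniv⟩, 0)
    (fun _ s => (nE s.1 (2 * s.2 + 1), s.2 + Bd (s.1.1 \ (nE s.1 (2 * s.2 + 1)).1) + 1)) k
  let E : ℕ → Set X := fun k => (st k).1.1
  let b : ℕ → ℝ := fun k => (st k).2
  let F : ℕ → Set X := fun k => E k \ E (k + 1)
  let N : ℕ → ℕ := fun k => nn (st k).1 (2 * b k + 1)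
  have hE : ∀ k, E (k + 1) ⊆ E k := fun k => hsub _ _
  have hEanti : Antitone E := antitone_nat_of_succ_le hE
  have hFval : ∀ k, 2 * b k + 1 ≤ |ν (N k) (F k)| := fun k => hval _ _
  have hb : ∀ k, b (k + 1) = b k + Bd (F k) + 1 := fun k => rfl
  have hbsum : ∀ k, b k = ∑ i ∈ Finset.range k, Bd (F i) + k := by
    intro k
    induction k with
    | zero => simp only [Finset.range_zero, Finset.sum_empty, Nat.cast_zero, add_zero]; rfl
    | succ k ih =>
      rw [hb, ih, Finset.sum_range_succ]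
      push_cast
      ring
  have hdis : Pairwise fun i j => Disjoint (F i) (F j) := by
    have h1 : ∀ i j, i < j → Disjoint (F i) (F j) := by
      intro i j hij
      rw [Set.disjoint_left]
      intro x hx hx2
      exact hx.2 (hEanti (Nat.succ_le_of_lt hij) hx2.1)
    intro i j hij
    rcases lt_or_gt_of_ne hij with h | h
    · exact h1 i j h
    · exact (h1 j i h).symm
  obtain ⟨K, hK, hKs⟩ := exists_subseq (fun k => ν (N k)) (fun k => hadd (N k))
    (fun k => hbd (N k)) F hdis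
  -- the bad set
  let A : Set X := ⋃ i ∈ K, F i
  obtain ⟨k, hk, hkA⟩ := hK.exists_gt (Nat.ceil (Bd A))
  have h1 : A = (⋃ i ∈ {i | i ∈ K ∧ i < k}, F i) ∪ (F k ∪ ⋃ i ∈ {i | i ∈ K ∧ k < i}, F i) := by
    ext x
    simp only [A, mem_iUnion, mem_union, mem_ofPred_eq, exists_prop]
    constructor
    · rintro ⟨i, hi, hx⟩
      rcases lt_trichotomy i k with h | h | h
      · exact Or.inl ⟨i, ⟨hi, h⟩, hx⟩
      · exact Or.inr (Or.inl (h ▸ hx))
      · exact Or.inr (Or.inr ⟨i, ⟨hi, h⟩, hx⟩)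
    · rintro (⟨i, ⟨hi, -⟩, hx⟩ | hx | ⟨i, ⟨hi, -⟩, hx⟩)
      · exact ⟨i, hi, hx⟩
      · exact ⟨k, hk, hx⟩
      · exact ⟨i, hi, hx⟩
  have hd1 : Disjoint (F k) (⋃ i ∈ {i | i ∈ K ∧ k < i}, F i) := by
    rw [disjoint_iUnion₂_right]
    intro i hi
    exact hdis (ne_of_lt hi.2)
  have hd2 : Disjoint (⋃ i ∈ {i | i ∈ K ∧ i < k}, F i)
      (F k ∪ ⋃ i ∈ {i | i ∈ K ∧ k < i}, F i) := by
    rw [disjoint_iUnion₂_left]
    intro i hi
    rw [disjoint_union_right, disjoint_iUnion₂_right]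
    exact ⟨hdis (ne_of_lt hi.2), fun j hj => hdis (ne_of_lt (hi.2.trans hj.2))⟩
  have hval2 := hadd (N k) _ _ hd2
  rw [hadd (N k) _ _ hd1, ← h1] at hval2
  classical
  have hlow : |ν (N k) (⋃ i ∈ {i | i ∈ K ∧ i < k}, F i)| ≤ ∑ i ∈ Finset.range k, Bd (F i) := by
    have e1 : (⋃ i ∈ {i | i ∈ K ∧ i < k}, F i) =
        ⋃ i ∈ (Finset.range k).filter (· ∈ K), F i := by
      ext x
      simp only [mem_iUnion, mem_ofPred_eq, exists_prop, Finset.mem_filter, Finset.mem_range]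
      constructor
      · rintro ⟨i, ⟨h1, h2⟩, h3⟩
        exact ⟨i, ⟨h2, h1⟩, h3⟩
      · rintro ⟨i, ⟨h1, h2⟩, h3⟩
        exact ⟨i, ⟨h2, h1⟩, h3⟩
    have hadd' : AddOn (fun _ : Set X => True) (ν (N k)) := fun A B _ _ hd => hadd _ A B hd
    rw [e1, (hadd'.biUnion trivial (fun _ _ _ _ => trivial) F _ (fun _ _ => trivial)
      (fun i _ j _ hij => hdis hij)).2]
    refine (Finset.abs_sum_le_sum_abs _ _).trans ?_
    refine (Finset.sum_le_sum fun i _ => hBd (F i) (N k)).trans ?_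
    exact Finset.sum_le_sum_of_subset_of_nonneg (Finset.filter_subset _ _) fun i _ _ => hBd0 _

  have hmid := hFval k
  have htot := hBd A (N k)
  have hbk := hbsum k
  have hkB : Bd A < k := (Nat.le_ceil _).trans_lt (by exact_mod_cast hkA)
  have hsum0 : 0 ≤ ∑ i ∈ Finset.range k, Bd (F i) := Finset.sum_nonneg fun i _ => hBd0 _
  -- final estimate
  have hhigh : |ν (N k) (⋃ i ∈ {i | i ∈ K ∧ k < i}, F i)| ≤ 1 := hKs k hk
  rw [abs_le] at hlow hhigh htot
  rcases abs_cases (ν (N k) (F k)) with ⟨e, _⟩ | ⟨e, _⟩ <;> linarith [hlow.1, hlow.2, hhigh.1,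
    hhigh.2, htot.1, htot.2]

end Additive

end Pool.Agent.V11256.NikA
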