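import Mathlib

/-!
# The space `ℓ¹(ι)`, its universal property, and algebras given by structure constants
-/

namespace Pool.Agent.V11256.L1A

open Set Filter Topology

instance fact_one : Fact ((1 : ENNReal) ≤ 1) := ⟨le_rfl⟩

/-- The space `ℓ¹(ι)` over the complex numbers. -/
abbrev L1 (ι : Type) : Type := lp (fun _ : ι => ℂ) 1

section Basic

variable {ι : Type}

open Classical in
/-- The basis vectors. -/
noncomputable def dl (i : ι) : L1 ι := lp.single 1 i (1 : ℂ)

theorem norm_dl (i : ι) : ‖dl i‖ = 1 := by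
  classical
  unfold dl
  rw [lp.norm_single one_pos, norm_one]

theorem dl_apply_self (i : ι) : dl i i = 1 := by
  classical
  unfold dl
  exact lp.single_apply_self _ _ _

theorem dl_apply_ne {i j : ι} (h : j ≠ i) : dl i j = 0 := by
  classical
  unfold dl
  exact lp.single_apply_ne _ _ _ h

theorem hasSum_norm (a : L1 ι) : HasSum (fun i => ‖a i‖) ‖a‖ := by
  have h := lp.hasSum_norm (p := 1) (by norm_num) a
  simpa using h

theorem summable_norm (a : L1 ι) : Summable fun i => ‖a i‖ := (hasSum_norm a).summable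

theorem hasSum_dl (a : L1 ι) : HasSum (fun i => a i • dl i) a := by
  classical
  have h := lp.hasSum_single (p := 1) ENNReal.one_ne_top a
  have e : (fun i => a i • dl i) = fun i => lp.single 1 i (a i) := by
    funext i
    unfold dl
    rw [← lp.single_smul, smul_eq_mul, mul_one]
  rw [e]
  exact h

variable {E : Type*} [NormedAddCommGroup E] [NormedSpace ℂ E]

theorem ext_dl {T T' : L1 ι →L[ℂ] E} (h : ∀ i, T (dl i) = T' (dl i)) : T = T' := by
  ext a
  have h1 := T.hasSum (hasSum_dl a)
  have h2 := T'.hasSum (hasSum_dl a)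
  have e : (fun i => T (a i • dl i)) = fun i => T' (a i • dl i) := by
    funext i
    rw [map_smul, map_smul, h]
  rw [e] at h1
  exact h1.unique h2

variable [CompleteSpace E]

theorem summable_lift (f : ι → E) {C : ℝ} (hf : ∀ i, ‖f i‖ ≤ C) (a : L1 ι) :
    Summable fun i => a i • f i := by
  refine Summable.of_norm_bounded (g := fun i => ‖a i‖ * C) ((summable_norm a).mul_right C)
    fun i => ?_
  rw [norm_smul]
  exact mul_le_mul_of_nonneg_left (hf i) (norm_nonneg _)

omit [CompleteSpace E] in
theorem norm_tsum_le (f : ι → E) {C : ℝ} (hf : ∀ i, ‖f i‖ ≤ C) (a : L1 ι) :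
    ‖∑' i, a i • f i‖ ≤ C * ‖a‖ := by
  have h1 : HasSum (fun i => ‖a i‖ * C) (‖a‖ * C) := (hasSum_norm a).mul_right C
  rw [mul_comm]
  refine tsum_of_norm_bounded h1 fun i => ?_
  rw [norm_smul]
  exact mul_le_mul_of_nonneg_left (hf i) (norm_nonneg _)

/-- The continuous linear map with prescribed values at the basis vectors. -/
noncomputable def lift (f : ι → E) (C : ℝ) (hf : ∀ i, ‖f i‖ ≤ C) : L1 ι →L[ℂ] E :=
  LinearMap.mkContinuous
    { toFun := fun a => ∑' i, a i • f i
      map_add' := fun a b => by
        simp only [lp.coeFn_add, Pi.add_apply, add_smul]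
        exact (summable_lift f hf a).tsum_add (summable_lift f hf b)
      map_smul' := fun c a => by
        simp only [lp.coeFn_smul, Pi.smul_apply, smul_assoc, RingHom.id_apply]
        exact (summable_lift f hf a).tsum_const_smul c } C (fun a => norm_tsum_le f hf a)

theorem lift_apply (f : ι → E) (C : ℝ) (hf : ∀ i, ‖f i‖ ≤ C) (a : L1 ι) :
    lift f C hf a = ∑' i, a i • f i := rfl

theorem lift_dl (f : ι → E) (C : ℝ) (hf : ∀ i, ‖f i‖ ≤ C) (i : ι) : lift f C hf (dl i) = f i := by
  rw [lift_apply, tsum_eq_single i fun j hj => by rw [dl_apply_ne hj, zero_smul], dl_apply_self,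
    one_smul]

theorem norm_lift_apply_le (f : ι → E) (C : ℝ) (hf : ∀ i, ‖f i‖ ≤ C) (a : L1 ι) :
    ‖lift f C hf a‖ ≤ C * ‖a‖ := norm_tsum_le f hf a

theorem norm_lift_le (f : ι → E) (hf : ∀ i, ‖f i‖ ≤ 1) : ‖lift f 1 hf‖ ≤ 1 :=
  LinearMap.mkContinuous_norm_le _ zero_le_one _

omit [CompleteSpace E] in
/-- Continuity in a parameter. -/
theorem continuous_lift [CompleteSpace E] {X : Type*} [TopologicalSpace X] (f : X → ι → E) {C : ℝ}
    (hf : ∀ x i, ‖f x i‖ ≤ C) (hc : ∀ i, Continuous fun x => f x i) (a : L1 ι) :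
    Continuous fun x => lift (f x) C (hf x) a := by
  simp only [lift_apply]
  refine continuous_tsum (u := fun i => ‖a i‖ * C) (fun i => (hc i).const_smul (a i))
    ((summable_norm a).mul_right C) fun i x => ?_
  rw [norm_smul]
  exact mul_le_mul_of_nonneg_left (hf x i) (norm_nonneg _)

/-- `ℓ¹(ι)` is separable for countable `ι`. -/
instance separableSpace_L1 [Countable ι] : TopologicalSpace.SeparableSpace (L1 ι) := by
  have h1 : (range (dl : ι → L1 ι)).Countable := countable_range _
  have h2 : TopologicalSpace.IsSeparable (Submodule.span ℂ (range (dl : ι → L1 ι)) : Set (L1 ι)) :=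
    h1.isSeparable.span
  have h3 := h2.closure
  have h4 : closure (Submodule.span ℂ (range (dl : ι → L1 ι)) : Set (L1 ι)) = univ := by
    refine eq_univ_of_forall fun a => ?_
    refine mem_closure_of_tendsto (hasSum_dl a) (Eventually.of_forall fun s => ?_)
    exact Submodule.sum_mem _ fun i _ => Submodule.smul_mem _ _ (Submodule.subset_span ⟨i, rfl⟩)
  rw [h4] at h3
  exact TopologicalSpace.isSeparable_univ_iff.mp h3

end Basic

/-! ### Algebras given by structure constants -/

/-- Structure constants. -/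
structure SC (ι : Type) where
  /-- the product of two basis vectors -/
  m : ι → ι → L1 ι
  le : ∀ i j, ‖m i j‖ ≤ 1

section Mul

variable {ι : Type} (D : SC ι)

/-- The bilinear product. -/
noncomputable def mulL : L1 ι →L[ℂ] L1 ι →L[ℂ] L1 ι :=
  lift (fun i => lift (D.m i) 1 (D.le i)) 1 fun i => norm_lift_le _ (D.le i)

theorem mulL_dl (i : ι) : mulL D (dl i) = lift (D.m i) 1 (D.le i) := lift_dl _ _ _ i

theorem mulL_dl_dl (i j : ι) : mulL D (dl i) (dl j) = D.m i j := by
  rw [mulL_dl, lift_dl]

theorem norm_mulL_le (a b : L1 ι) : ‖mulL D a b‖ ≤ ‖a‖ * ‖b‖ := by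
  have h1 : ‖mulL D‖ ≤ 1 := norm_lift_le _ fun i => norm_lift_le _ (D.le i)
  have h2 := (mulL D).le_opNorm₂ a b
  refine h2.trans ?_
  have : 0 ≤ ‖a‖ * ‖b‖ := by positivity
  nlinarith

theorem mulL_add_left (a b c : L1 ι) : mulL D (a + b) c = mulL D a c + mulL D b c := by
  rw [map_add]
  rfl

theorem mulL_zero_left (a : L1 ι) : mulL D 0 a = 0 := by
  rw [map_zero]
  rfl

theorem mulL_smul_left (c : ℂ) (a b : L1 ι) : mulL D (c • a) b = c • mulL D a b := by
  rw [map_smul]
  rfl

theorem mulL_smul_right (c : ℂ) (a b : L1 ι) : mulL D a (c • b) = c • mulL D a b :=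
  (mulL D a).map_smul c b

variable {D}

theorem mulL_assoc (h : ∀ i j k, mulL D (D.m i j) (dl k) = mulL D (dl i) (D.m j k))
    (a b c : L1 ι) : mulL D (mulL D a b) c = mulL D a (mulL D b c) := by
  -- the last variable
  have h3 : ∀ i j, ∀ c, mulL D (mulL D (dl i) (dl j)) c = mulL D (dl i) (mulL D (dl j) c) := by
    intro i j c
    have : mulL D (mulL D (dl i) (dl j)) = (mulL D (dl i)).comp (mulL D (dl j)) := by
      refine ext_dl fun k => ?_
      rw [ContinuousLinearMap.comp_apply, mulL_dl_dl, mulL_dl_dl]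
      exact h i j k
    rw [this]
    rfl
  -- the middle variable
  have h2 : ∀ i, ∀ b c, mulL D (mulL D (dl i) b) c = mulL D (dl i) (mulL D b c) := by
    intro i b c
    have : ((mulL D).flip c).comp (mulL D (dl i)) = (mulL D (dl i)).comp ((mulL D).flip c) := by
      refine ext_dl fun j => ?_
      exact h3 i j c
    exact DFunLike.congr_fun this b
  have h1 : ((mulL D).flip c).comp ((mulL D).flip b) = (mulL D).flip (mulL D b c) := by
    refine ext_dl fun i => ?_
    exact h2 i b c
  exact DFunLike.congr_fun h1 a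

end Mul

/-- Associative structure constants. -/
structure ASC (ι : Type) extends SC ι where
  assoc : ∀ i j k, mulL toSC (m i j) (dl k) = mulL toSC (dl i) (m j k)

/-- The algebra with given structure constants. -/
def Alg {ι : Type} (_ : ASC ι) : Type := L1 ι

section AlgInst

variable {ι : Type} (D : ASC ι)

noncomputable instance : NormedAddCommGroup (Alg D) := inferInstanceAs (NormedAddCommGroup (L1 ι))

noncomputable instance : NormedSpace ℂ (Alg D) := inferInstanceAs (NormedSpace ℂ (L1 ι))

instance : CompleteSpace (Alg D) := inferInstanceAs (CompleteSpace (L1 ι))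

instance [Countable ι] : TopologicalSpace.SeparableSpace (Alg D) :=
  inferInstanceAs (TopologicalSpace.SeparableSpace (L1 ι))

noncomputable instance : NonUnitalNormedRing (Alg D) where
  mul a b := mulL D.toSC a b
  left_distrib a b c := (mulL D.toSC a).map_add b c
  right_distrib a b c := mulL_add_left D.toSC a b c
  zero_mul a := mulL_zero_left D.toSC a
  mul_zero a := (mulL D.toSC a).map_zero
  mul_assoc a b c := mulL_assoc D.assoc a b c
  dist_eq a b := by
    have := NormedAddCommGroup.dist_eq (E := Alg D) a b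
    exact this
  norm_mul_le a b := norm_mulL_le D.toSC a b

theorem mul_def (a b : Alg D) : a * b = mulL D.toSC a b := rfl

instance : IsScalarTower ℂ (Alg D) (Alg D) where
  smul_assoc c a b := mulL_smul_left D.toSC c a b

instance : SMulCommClass ℂ (Alg D) (Alg D) where
  smul_comm c a b := (mulL_smul_right D.toSC c a b).symm

end AlgInst

end Pool.Agent.V11256.L1A
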