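import Mathlib

/-!
# Closed ideals of Banach algebras, quotients, simplicity
-/

namespace Pool.Agent.V11256.QuoA

open Set Filter Topology

/-- The closed two-sided ideals of a normed algebra. -/
structure ClosedIdeal (P : Type) [NonUnitalNormedRing P] [NormedSpace ℂ P] where
  /-- the underlying linear subspace -/
  carrier : Submodule ℂ P
  closed : IsClosed (carrier : Set P)
  mul_left : ∀ a b, b ∈ carrier → a * b ∈ carrier
  mul_right : ∀ a b, a ∈ carrier → a * b ∈ carrier

section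

variable {P : Type} [NonUnitalNormedRing P] [NormedSpace ℂ P]

/-- The Wijsman topology: the weakest topology for which all the distance functions
`K ↦ d(p, K)` are continuous. -/
noncomputable instance : TopologicalSpace (ClosedIdeal P) :=
  TopologicalSpace.induced (fun K (p : P) => Metric.infDist p (K.carrier : Set P)) inferInstance

/-- The quotient algebra. -/
def Quo (K : ClosedIdeal P) : Type := P ⧸ K.carrier

variable (K : ClosedIdeal P)

noncomputable instance : NormedAddCommGroup (Quo K) :=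
  haveI : IsClosed (K.carrier : Set P) := K.closed
  inferInstanceAs (NormedAddCommGroup (P ⧸ K.carrier))

noncomputable instance : NormedSpace ℂ (Quo K) :=
  haveI : IsClosed (K.carrier : Set P) := K.closed
  inferInstanceAs (NormedSpace ℂ (P ⧸ K.carrier))

instance [CompleteSpace P] : CompleteSpace (Quo K) :=
  haveI : IsClosed (K.carrier : Set P) := K.closed
  inferInstanceAs (CompleteSpace (P ⧸ K.carrier))

/-- The quotient map. -/
def qmk (a : P) : Quo K := Submodule.Quotient.mk a

variable {K}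

theorem qmk_surjective (x : Quo K) : ∃ a, qmk K a = x := Submodule.Quotient.mk_surjective _ x

theorem qmk_eq {a b : P} : qmk K a = qmk K b ↔ a - b ∈ K.carrier := Submodule.Quotient.eq _

theorem qmk_eq_zero {a : P} : qmk K a = 0 ↔ a ∈ K.carrier := Submodule.Quotient.mk_eq_zero _

theorem qmk_add (a b : P) : qmk K (a + b) = qmk K a + qmk K b := rfl

theorem qmk_smul (c : ℂ) (a : P) : qmk K (c • a) = c • qmk K a := rfl

theorem norm_qmk_le (a : P) : ‖qmk K a‖ ≤ ‖a‖ := Submodule.Quotient.norm_mk_le _ a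

theorem exists_norm_lt (x : Quo K) {ε : ℝ} (hε : 0 < ε) : ∃ a, qmk K a = x ∧ ‖a‖ < ‖x‖ + ε :=
  Submodule.Quotient.norm_mk_lt x hε

noncomputable instance : Mul (Quo K) where
  mul x y := Quotient.map₂ (fun a b : P => a * b) (by
    intro a a' h b b' h'
    have h1 : a - a' ∈ K.carrier := (Submodule.quotientRel_def _).mp h
    have h2 : b - b' ∈ K.carrier := (Submodule.quotientRel_def _).mp h'
    refine (Submodule.quotientRel_def _).mpr ?_
    have h3 : a * b - a' * b' = (a - a') * b + a' * (b - b') := by noncomm_ring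
    rw [h3]
    exact K.carrier.add_mem (K.mul_right _ _ h1) (K.mul_left _ _ h2)) x y

theorem qmk_mul (a b : P) : qmk K (a * b) = qmk K a * qmk K b := rfl

noncomputable instance : NonUnitalNormedRing (Quo K) where
  left_distrib x y z := by
    obtain ⟨a, rfl⟩ := qmk_surjective x
    obtain ⟨b, rfl⟩ := qmk_surjective y
    obtain ⟨c, rfl⟩ := qmk_surjective z
    rw [← qmk_add, ← qmk_mul, ← qmk_mul, ← qmk_mul, ← qmk_add, mul_add]
  right_distrib x y z := by
    obtain ⟨a, rfl⟩ := qmk_surjective x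
    obtain ⟨b, rfl⟩ := qmk_surjective y
    obtain ⟨c, rfl⟩ := qmk_surjective z
    rw [← qmk_add, ← qmk_mul, ← qmk_mul, ← qmk_mul, ← qmk_add, add_mul]
  zero_mul x := by
    obtain ⟨a, rfl⟩ := qmk_surjective x
    have h0 : (0 : Quo K) = qmk K 0 := rfl
    rw [h0, ← qmk_mul, zero_mul]
  mul_zero x := by
    obtain ⟨a, rfl⟩ := qmk_surjective x
    have h0 : (0 : Quo K) = qmk K 0 := rfl
    rw [h0, ← qmk_mul, mul_zero]
  mul_assoc x y z := by
    obtain ⟨a, rfl⟩ := qmk_surjective x
    obtain ⟨b, rfl⟩ := qmk_surjective y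
    obtain ⟨c, rfl⟩ := qmk_surjective z
    rw [← qmk_mul, ← qmk_mul, ← qmk_mul, ← qmk_mul, mul_assoc]
  dist_eq x y := NormedAddCommGroup.dist_eq (E := Quo K) x y
  norm_mul_le x y := by
    refine le_of_forall_pos_le_add fun ε hε => ?_
    -- a small `δ`
    obtain ⟨δ, hδ0, hδ⟩ : ∃ δ : ℝ, 0 < δ ∧ (‖x‖ + δ) * (‖y‖ + δ) ≤ ‖x‖ * ‖y‖ + ε := by
      refine ⟨min 1 (ε / (‖x‖ + ‖y‖ + 1)), by positivity, ?_⟩
      set δ := min 1 (ε / (‖x‖ + ‖y‖ + 1)) with hδ
      have h1 : δ ≤ 1 := min_le_left _ _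
      have h2 : δ ≤ ε / (‖x‖ + ‖y‖ + 1) := min_le_right _ _
      have h3 : 0 < δ := by positivity
      have h4 : 0 < ‖x‖ + ‖y‖ + 1 := by positivity
      rw [le_div_iff₀ h4] at h2
      nlinarith [norm_nonneg x, norm_nonneg y]
    obtain ⟨a, rfl, ha⟩ := exists_norm_lt x hδ0
    obtain ⟨b, rfl, hb⟩ := exists_norm_lt y hδ0
    rw [← qmk_mul]
    refine (norm_qmk_le _).trans ((norm_mul_le a b).trans (le_trans ?_ hδ))
    exact mul_le_mul ha.le hb.le (norm_nonneg _) (by positivity)

instance [IsScalarTower ℂ P P] : IsScalarTower ℂ (Quo K) (Quo K) where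
  smul_assoc c x y := by
    obtain ⟨a, rfl⟩ := qmk_surjective x
    obtain ⟨b, rfl⟩ := qmk_surjective y
    show (c • qmk K a) * qmk K b = c • (qmk K a * qmk K b)
    rw [← qmk_smul, ← qmk_mul, ← qmk_mul, ← qmk_smul, smul_mul_assoc]

instance [SMulCommClass ℂ P P] : SMulCommClass ℂ (Quo K) (Quo K) where
  smul_comm c x y := by
    obtain ⟨a, rfl⟩ := qmk_surjective x
    obtain ⟨b, rfl⟩ := qmk_surjective y
    show c • (qmk K a * qmk K b) = qmk K a * (c • qmk K b)
    rw [← qmk_smul, ← qmk_mul, ← qmk_mul, ← qmk_smul, mul_smul_comm]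

end

/-- `B` and `B'` are isomorphic as Banach algebras. -/
def Iso (B B' : Type) [NonUnitalNormedRing B] [NormedSpace ℂ B] [NonUnitalNormedRing B']
    [NormedSpace ℂ B'] : Prop :=
  ∃ e : B ≃L[ℂ] B', ∀ a b, e (a * b) = e a * e b

/-- `L` is a two-sided ideal. -/
def IsIdeal {B : Type} [NonUnitalNormedRing B] [NormedSpace ℂ B] (L : Submodule ℂ B) : Prop :=
  ∀ a b, b ∈ L → a * b ∈ L ∧ b * a ∈ L

/-- The two-sided ideal generated by `b`: the smallest two-sided ideal containing `b`. -/
def idealSpan {B : Type} [NonUnitalNormedRing B] [NormedSpace ℂ B] (b : B) : Submodule ℂ B :=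
  sInf {L | IsIdeal L ∧ b ∈ L}

/-- `B` is simple: the two-sided ideal generated by any nonzero element is dense. -/
def IsSimpleAlg (B : Type) [NonUnitalNormedRing B] [NormedSpace ℂ B] : Prop :=
  ∀ b : B, b ≠ 0 → Dense (idealSpan b : Set B)

/-- `P` is a quotient generator for Banach algebras: every separable Banach algebra is isomorphic to
a quotient of `P` by a closed two-sided ideal. -/
def IsQuotientGenerator (P : Type) [NonUnitalNormedRing P] [NormedSpace ℂ P] : Prop :=
  ∀ (B : Type) [NonUnitalNormedRing B] [NormedSpace ℂ B] [IsScalarTower ℂ B B]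
    [SMulCommClass ℂ B B] [CompleteSpace B] [TopologicalSpace.SeparableSpace B],
    ∃ K : ClosedIdeal P, Iso (Quo K) B

/-- The set of all closed two-sided ideals with simple quotient. -/
def SimpleSet (P : Type) [NonUnitalNormedRing P] [NormedSpace ℂ P] : Set (ClosedIdeal P) :=
  {K | IsSimpleAlg (Quo K)}

section

variable {B B' : Type} [NonUnitalNormedRing B] [NormedSpace ℂ B] [NonUnitalNormedRing B']
    [NormedSpace ℂ B']

theorem Iso.symm (h : Iso B B') : Iso B' B := by
  obtain ⟨e, he⟩ := h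
  refine ⟨e.symm, fun a b => e.injective ?_⟩
  rw [he, e.apply_symm_apply, e.apply_symm_apply, e.apply_symm_apply]

theorem Iso.simple (h : Iso B B') (hB : IsSimpleAlg B) : IsSimpleAlg B' := by
  obtain ⟨e, he⟩ := h
  intro b' hb'
  have hb : e.symm b' ≠ 0 := fun h0 => hb' (by
    have := congrArg e h0
    rwa [e.apply_symm_apply, map_zero] at this)
  have h1 := hB _ hb
  have h2 : Dense (e '' (idealSpan (e.symm b') : Set B)) :=
    e.surjective.denseRange.dense_image e.continuous h1
  refine h2.mono ?_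
  rintro _ ⟨x, hx, rfl⟩
  rw [SetLike.mem_coe, idealSpan, Submodule.mem_sInf]
  rintro L ⟨hL, hbL⟩
  have hx' : x ∈ idealSpan (e.symm b') := hx
  rw [idealSpan, Submodule.mem_sInf] at hx'
  refine hx' (L.comap (e : B →ₗ[ℂ] B')) ⟨fun a b hb => ⟨?_, ?_⟩, ?_⟩
  · show e (a * b) ∈ L
    rw [he]
    exact (hL _ _ hb).1
  · show e (b * a) ∈ L
    rw [he]
    exact (hL _ _ hb).2
  · show e (e.symm b') ∈ L
    rwa [e.apply_symm_apply]

end

/-- The kernel of a multiplicative continuous linear map. -/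
def kerIdeal {P B : Type} [NonUnitalNormedRing P] [NormedSpace ℂ P] [NonUnitalNormedRing B]
    [NormedSpace ℂ B] (T : P →L[ℂ] B) (hT : ∀ a b, T (a * b) = T a * T b) : ClosedIdeal P where
  carrier := LinearMap.ker (T : P →ₗ[ℂ] B)
  closed := T.isClosed_ker
  mul_left a b hb := by
    have hb' : T b = 0 := hb
    show T (a * b) = 0
    rw [hT, hb', mul_zero]
  mul_right a b ha := by
    have ha' : T a = 0 := ha
    show T (a * b) = 0
    rw [hT, ha', zero_mul]

theorem mem_kerIdeal {P B : Type} [NonUnitalNormedRing P] [NormedSpace ℂ P] [NonUnitalNormedRing B]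
    [NormedSpace ℂ B] (T : P →L[ℂ] B) (hT : ∀ a b, T (a * b) = T a * T b) {a : P} :
    a ∈ (kerIdeal T hT).carrier ↔ T a = 0 := Iff.rfl

/-- The first isomorphism theorem. -/
theorem iso_of_surjective {P B : Type} [NonUnitalNormedRing P] [NormedSpace ℂ P]
    [NonUnitalNormedRing B] [NormedSpace ℂ B] [CompleteSpace P] [CompleteSpace B] (T : P →L[ℂ] B)
    (hT : ∀ a b, T (a * b) = T a * T b) (hs : Function.Surjective T) :
    Iso (Quo (kerIdeal T hT)) B := by
  set K := kerIdeal T hT with hK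
  let f : (P ⧸ K.carrier) →ₗ[ℂ] B := K.carrier.liftQ (T : P →ₗ[ℂ] B) le_rfl
  have hf : ∀ a, f (Submodule.Quotient.mk a) = T a := fun a => rfl
  let g : Quo K →ₗ[ℂ] B :=
    { toFun := f
      map_add' := fun x y => by
        obtain ⟨a, rfl⟩ := qmk_surjective x
        obtain ⟨b, rfl⟩ := qmk_surjective y
        rw [← qmk_add]
        exact T.map_add a b
      map_smul' := fun c x => by
        obtain ⟨a, rfl⟩ := qmk_surjective x
        rw [← qmk_smul]
        exact T.map_smul c a }
  have hg : ∀ a, g (qmk K a) = T a := fun a => rfl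
  have hcont : Continuous g := by
    refine (g.mkContinuous ‖T‖ fun x => ?_).continuous
    refine le_of_forall_pos_le_add fun ε hε => ?_
    obtain ⟨a, rfl, ha⟩ := exists_norm_lt x (ε := ε / (‖T‖ + 1)) (by positivity)
    rw [hg]
    have h1 : ‖T‖ * (ε / (‖T‖ + 1)) ≤ ε := by
      rw [mul_div_assoc', div_le_iff₀ (by positivity)]
      nlinarith [norm_nonneg T]
    have h2 := T.le_opNorm a
    have h3 : ‖T‖ * ‖a‖ ≤ ‖T‖ * (‖qmk K a‖ + ε / (‖T‖ + 1)) :=
      mul_le_mul_of_nonneg_left ha.le (norm_nonneg _)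
    linarith
  have hbij : Function.Bijective g := by
    constructor
    · rw [injective_iff_map_eq_zero]
      intro x hx
      obtain ⟨a, rfl⟩ := qmk_surjective x
      rw [hg] at hx
      exact qmk_eq_zero.mpr hx
    · intro b
      obtain ⟨a, ha⟩ := hs b
      exact ⟨qmk K a, ha⟩
  refine ⟨(LinearEquiv.ofBijective g hbij).toContinuousLinearEquivOfContinuous hcont, ?_⟩
  intro x y
  obtain ⟨a, rfl⟩ := qmk_surjective x
  obtain ⟨b, rfl⟩ := qmk_surjective y
  rw [← qmk_mul]
  exact hT a b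

/-- Approximate surjectivity with control gives surjectivity with control. -/
theorem exists_preimage {E F : Type} [NormedAddCommGroup E] [NormedSpace ℂ E]
    [NormedAddCommGroup F] [NormedSpace ℂ F] [CompleteSpace E] (T : E →L[ℂ] F)
    {ε : ℝ} (hε0 : 0 < ε) (hε1 : ε < 1)
    (h : ∀ y : F, ∃ x : E, ‖x‖ ≤ ‖y‖ ∧ ‖y - T x‖ ≤ ε * ‖y‖) (y : F) :
    ∃ x : E, T x = y ∧ ‖x‖ ≤ ‖y‖ / (1 - ε) := by
  choose g hg1 hg2 using h
  let r : ℕ → F := fun k => Nat.rec y (fun _ z => z - T (g z)) k
  have hr : ∀ k, r (k + 1) = r k - T (g (r k)) := fun _ => rfl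
  have hrn : ∀ k, ‖r k‖ ≤ ε ^ k * ‖y‖ := by
    intro k
    induction k with
    | zero => simp [r]
    | succ k ih =>
      rw [hr, pow_succ]
      refine (hg2 (r k)).trans ?_
      calc ε * ‖r k‖ ≤ ε * (ε ^ k * ‖y‖) := mul_le_mul_of_nonneg_left ih hε0.le
        _ = ε ^ k * ε * ‖y‖ := by ring
  have hsum : HasSum (fun k => ε ^ k * ‖y‖) ((1 - ε)⁻¹ * ‖y‖) :=
    (hasSum_geometric_of_lt_one hε0.le hε1).mul_right _
  have hgb : ∀ k, ‖g (r k)‖ ≤ ε ^ k * ‖y‖ := fun k => (hg1 _).trans (hrn k)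
  have hs : Summable fun k => g (r k) := Summable.of_norm_bounded hsum.summable hgb
  refine ⟨∑' k, g (r k), ?_, ?_⟩
  · have h1 : Tendsto (fun n => T (∑ k ∈ Finset.range n, g (r k))) atTop (𝓝 (T (∑' k, g (r k)))) :=
      (T.continuous.tendsto _).comp hs.hasSum.tendsto_sum_nat
    have h2 : ∀ n, T (∑ k ∈ Finset.range n, g (r k)) = y - r n := by
      intro n
      induction n with
      | zero => simp [r]
      | succ n ih =>
        rw [Finset.sum_range_succ, map_add, ih, hr]
        abel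
    simp only [h2] at h1
    have h3 : Tendsto r atTop (𝓝 0) := by
      rw [tendsto_zero_iff_norm_tendsto_zero]
      have h4 : Tendsto (fun k => ε ^ k * ‖y‖) atTop (𝓝 (0 * ‖y‖)) :=
        (tendsto_pow_atTop_nhds_zero_of_lt_one hε0.le hε1).mul_const _
      rw [zero_mul] at h4
      exact squeeze_zero (fun k => norm_nonneg _) hrn h4
    have h5 : Tendsto (fun n => y - r n) atTop (𝓝 (y - 0)) := h3.const_sub y
    rw [sub_zero] at h5
    exact tendsto_nhds_unique h1 h5
  · have h1 := tsum_of_norm_bounded hsum hgb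
    rw [div_eq_mul_inv, mul_comm]
    exact h1

theorem infDist_ker {P B : Type} [NonUnitalNormedRing P] [NormedSpace ℂ P] [NonUnitalNormedRing B]
    [NormedSpace ℂ B] [CompleteSpace P] (T : P →L[ℂ] B) (hT : ∀ a b, T (a * b) = T a * T b)
    (hT1 : ∀ a, ‖T a‖ ≤ ‖a‖)
    (h : ∀ ε : ℝ, 0 < ε → ∀ y : B, ∃ x : P, ‖x‖ ≤ ‖y‖ ∧ ‖y - T x‖ ≤ ε * ‖y‖) (p : P) :
    Metric.infDist p ((kerIdeal T hT).carrier : Set P) = ‖T p‖ := by
  refine le_antisymm ?_ ?_
  · -- upper bound
    have key : ∀ ε : ℝ, 0 < ε → ε < 1 →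
        Metric.infDist p ((kerIdeal T hT).carrier : Set P) * (1 - ε) ≤ ‖T p‖ := by
      intro ε h0 h1
      obtain ⟨x, hx, hxn⟩ := exists_preimage T h0 h1 (h ε h0) (T p)
      have hmem : p - x ∈ (kerIdeal T hT).carrier := by
        rw [mem_kerIdeal, map_sub, hx, sub_self]
      have h2 : Metric.infDist p ((kerIdeal T hT).carrier : Set P) ≤ dist p (p - x) :=
        Metric.infDist_le_dist_of_mem hmem
      rw [dist_eq_norm, sub_sub_cancel] at h2
      have h3 : 0 < 1 - ε := by linarith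
      rw [le_div_iff₀ h3] at hxn
      nlinarith
    by_contra hcon
    rw [not_le] at hcon
    set D := Metric.infDist p ((kerIdeal T hT).carrier : Set P) with hD
    have hDpos : 0 < D := (norm_nonneg _).trans_lt hcon
    have h1 := key ((D - ‖T p‖) / (2 * D)) (by
      have : 0 < D - ‖T p‖ := by linarith
      positivity) (by
      rw [div_lt_one (by positivity)]
      linarith [norm_nonneg (T p)])
    have h2 : D * (1 - (D - ‖T p‖) / (2 * D)) = D - (D - ‖T p‖) / 2 := by
      field_simp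
    rw [h2] at h1
    linarith
  · -- lower bound
    rw [Metric.infDist_eq_iInf] 
    have : Nonempty ((kerIdeal T hT).carrier : Set P) := ⟨⟨0, (kerIdeal T hT).carrier.zero_mem⟩⟩
    refine le_ciInf fun z => ?_
    have hz : T z.1 = 0 := z.2
    rw [dist_eq_norm]
    have h1 := hT1 (p - z.1)
    rwa [map_sub, hz, sub_zero] at h1

end Pool.Agent.V11256.QuoA
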