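import Mathlib
import Pool.Agent.V11256.L1A
import Pool.Agent.V11256.QuoA

/-!
# The algebra `ℓ¹(S)` for the free semigroup `S` and a family of Munn algebras
-/

namespace Pool.Agent.V11256.MunnA

open Set Filter Topology Pool.Agent.V11256.L1A Pool.Agent.V11256.QuoA

/-! ### The convolution algebra -/

/-- The structure constants of the convolution product on `ℓ¹(S)`. -/
noncomputable def convASC (S : Type) [Semigroup S] : ASC S where
  m s t := dl (s * t)
  le s t := (norm_dl _).le
  assoc s t u := by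
    rw [mulL_dl_dl, mulL_dl_dl]
    show dl (s * t * u) = dl (s * (t * u))
    rw [mul_assoc]

/-- The Banach algebra `ℓ¹(S)` with the convolution product. -/
abbrev ConvAlg (S : Type) [Semigroup S] : Type := Alg (convASC S)

section Hom

variable {S : Type} [Semigroup S] {B : Type} [NonUnitalNormedRing B] [NormedSpace ℂ B]
  [CompleteSpace B]

/-- The continuous linear map induced by a contractive homomorphism. -/
noncomputable def hom (φ : S →ₙ* B) (h : ∀ s, ‖φ s‖ ≤ 1) : ConvAlg S →L[ℂ] B :=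
  (lift (fun s => φ s) 1 h : L1 S →L[ℂ] B)

theorem hom_dl (φ : S →ₙ* B) (h : ∀ s, ‖φ s‖ ≤ 1) (s : S) : hom φ h (dl s) = φ s := lift_dl _ _ _ s

theorem norm_hom_le (φ : S →ₙ* B) (h : ∀ s, ‖φ s‖ ≤ 1) (a : ConvAlg S) : ‖hom φ h a‖ ≤ ‖a‖ := by
  have := norm_lift_apply_le (fun s => φ s) 1 h a
  rw [one_mul] at this
  exact this

theorem hom_mul [IsScalarTower ℂ B B] [SMulCommClass ℂ B B] (φ : S →ₙ* B) (h : ∀ s, ‖φ s‖ ≤ 1)
    (a b : ConvAlg S) : hom φ h (a * b) = hom φ h a * hom φ h b := by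
  let T : L1 S →L[ℂ] B := lift (fun s => φ s) 1 h
  let M : L1 S →L[ℂ] L1 S →L[ℂ] L1 S := mulL (convASC S).toSC
  have h1 : ∀ s, ∀ b, T (M (dl s) b) = T (dl s) * T b := by
    intro s b
    have : T.comp (M (dl s)) = (ContinuousLinearMap.mul ℂ B (T (dl s))).comp T := by
      refine ext_dl fun t => ?_
      show T (mulL (convASC S).toSC (dl s) (dl t)) = T (dl s) * T (dl t)
      rw [mulL_dl_dl]
      show T (dl (s * t)) = _
      rw [lift_dl, lift_dl, lift_dl, map_mul]
    exact DFunLike.congr_fun this b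
  have h2 : T.comp (M.flip b) = ((ContinuousLinearMap.mul ℂ B).flip (T b)).comp T := by
    refine ext_dl fun s => ?_
    exact h1 s b
  exact DFunLike.congr_fun h2 a

end Hom

theorem dense_ball (E : Type) [NormedAddCommGroup E] [TopologicalSpace.SeparableSpace E] :
    ∃ u : ℕ → E, (∀ n, ‖u n‖ ≤ 1) ∧ ∀ y : E, ‖y‖ ≤ 1 → ∀ ε : ℝ, 0 < ε → ∃ n, ‖y - u n‖ < ε := by
  have hs : SecondCountableTopology E := UniformSpace.secondCountable_of_separable E
  let X : Type := Metric.closedBall (0 : E) 1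
  have hX : Nonempty (Metric.closedBall (0 : E) 1) := ⟨⟨0, by simp⟩⟩
  refine ⟨fun n => (TopologicalSpace.denseSeq (Metric.closedBall (0 : E) 1) n : E), fun n => ?_,
    fun y hy ε hε => ?_⟩
  · have := (TopologicalSpace.denseSeq (Metric.closedBall (0 : E) 1) n).2
    rwa [mem_closedBall_zero_iff] at this
  · have hd := TopologicalSpace.denseRange_denseSeq (Metric.closedBall (0 : E) 1)
    obtain ⟨n, hn⟩ := hd.exists_dist_lt ⟨y, by rwa [mem_closedBall_zero_iff]⟩ hε
    refine ⟨n, ?_⟩
    rw [Subtype.dist_eq, dist_eq_norm] at hn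
    exact hn

section Gen

variable {B : Type} [NonUnitalNormedRing B] [NormedSpace ℂ B]

/-- The homomorphism of the free semigroup given by the images of the generators. -/
def gen (u : ℕ → B) : FreeSemigroup ℕ →ₙ* B := FreeSemigroup.lift u

omit [NormedSpace ℂ B] in
theorem gen_of (u : ℕ → B) (n : ℕ) : gen u (FreeSemigroup.of n) = u n := by
  simp [gen]

omit [NormedSpace ℂ B] in
theorem norm_gen_le {u : ℕ → B} (hu : ∀ n, ‖u n‖ ≤ 1) (s : FreeSemigroup ℕ) : ‖gen u s‖ ≤ 1 := by
  induction s using FreeSemigroup.recOnMul with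
  | ih1 n => rw [gen_of]; exact hu n
  | ih2 n s h1 h2 =>
    rw [map_mul]
    refine (norm_mul_le _ _).trans ?_
    nlinarith [norm_nonneg (gen u (FreeSemigroup.of n)), norm_nonneg (gen u s)]

variable [CompleteSpace B]

theorem hom_approx {u : ℕ → B} (hu : ∀ n, ‖u n‖ ≤ 1)
    (hd : ∀ y : B, ‖y‖ ≤ 1 → ∀ ε : ℝ, 0 < ε → ∃ n, ‖y - u n‖ < ε) (ε : ℝ) (hε : 0 < ε) (y : B) :
    ∃ x : ConvAlg (FreeSemigroup ℕ), ‖x‖ ≤ ‖y‖ ∧
      ‖y - hom (gen u) (norm_gen_le hu) x‖ ≤ ε * ‖y‖ := by
  by_cases hy : y = 0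
  · exact ⟨0, by rw [hy]; simp, by rw [hy]; simp⟩
  · have hy0 : 0 < ‖y‖ := norm_pos_iff.mpr hy
    obtain ⟨n, hn⟩ := hd ((‖y‖⁻¹ : ℂ) • y) (by
      rw [norm_smul, norm_inv, Complex.norm_real, norm_norm, inv_mul_cancel₀ hy0.ne']) ε hε
    have h1 : hom (gen u) (norm_gen_le hu) ((‖y‖ : ℂ) • (dl (FreeSemigroup.of n) :
        L1 (FreeSemigroup ℕ)) : L1 (FreeSemigroup ℕ)) = (‖y‖ : ℂ) • u n := by
      have h2 := (lift (fun s => gen u s) 1 (norm_gen_le hu)).map_smul (‖y‖ : ℂ)
        (dl (FreeSemigroup.of n))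
      rw [lift_dl, gen_of] at h2
      exact h2
    refine ⟨((‖y‖ : ℂ) • (dl (FreeSemigroup.of n) : L1 (FreeSemigroup ℕ)) :
      L1 (FreeSemigroup ℕ)), ?_, ?_⟩
    · have h3 : ‖((‖y‖ : ℂ) • (dl (FreeSemigroup.of n) : L1 (FreeSemigroup ℕ)) :
          L1 (FreeSemigroup ℕ))‖ = ‖y‖ := by
        rw [norm_smul, norm_dl, mul_one, Complex.norm_real, norm_norm]
      exact h3.le
    · rw [h1]
      have h4 : y - (‖y‖ : ℂ) • u n = (‖y‖ : ℂ) • ((‖y‖⁻¹ : ℂ) • y - u n) := by
        rw [smul_sub, smul_smul, mul_inv_cancel₀ (by exact_mod_cast hy0.ne'), one_smul]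
      rw [h4, norm_smul, Complex.norm_real, norm_norm, mul_comm]
      exact mul_le_mul_of_nonneg_right hn.le hy0.le

theorem hom_surjective {u : ℕ → B} (hu : ∀ n, ‖u n‖ ≤ 1)
    (hd : ∀ y : B, ‖y‖ ≤ 1 → ∀ ε : ℝ, 0 < ε → ∃ n, ‖y - u n‖ < ε) :
    Function.Surjective (hom (gen u) (norm_gen_le hu)) := by
  intro y
  obtain ⟨x, hx, -⟩ := exists_preimage (hom (gen u) (norm_gen_le hu)) (ε := 1 / 2) (by norm_num)
    (by norm_num) (hom_approx hu hd (1 / 2) (by norm_num)) y
  exact ⟨x, hx⟩

end Gen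

/-- `ℓ¹` of the free semigroup on countably many generators is a quotient generator. -/
theorem isQuotientGenerator : IsQuotientGenerator (ConvAlg (FreeSemigroup ℕ)) := by
  intro B _ _ _ _ _ _
  obtain ⟨u, hu, hd⟩ := dense_ball B
  exact ⟨kerIdeal (hom (gen u) (norm_gen_le hu)) (hom_mul _ _),
    iso_of_surjective _ _ (hom_surjective hu hd)⟩

/-! ### The Munn algebras -/

open Classical in
/-- The sandwich matrix. -/
noncomputable def Phi (x : ℕ → Bool) (j k : ℕ) : ℂ :=
  if j = k then 1 else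
    if j < k ∧ x j = true ∧ x k = true ∧ ∀ i, j < i → i < k → x i = false then -2 else 0

theorem norm_Phi_le (x : ℕ → Bool) (j k : ℕ) : ‖Phi x j k / 2‖ ≤ 1 := by
  unfold Phi
  split_ifs
  · norm_num
  · norm_num
  · norm_num

/-- The structure constants of the Munn algebra. -/
noncomputable def munn (x : ℕ → Bool) : ASC (ℕ × ℕ) where
  m p q := (Phi x p.2 q.1 / 2) • dl (p.1, q.2)
  le p q := by
    rw [norm_smul, norm_dl, mul_one]
    exact norm_Phi_le _ _ _
  assoc p q r := by
    rw [mulL_smul_left, mulL_smul_right, mulL_dl_dl, mulL_dl_dl, smul_smul, smul_smul, mul_comm]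

/-- The Munn algebra. -/
abbrev MA (x : ℕ → Bool) : Type := Alg (munn x)

theorem mul_dl_dl (x : ℕ → Bool) (p q : ℕ × ℕ) :
    mulL (munn x).toSC (dl p) (dl q) = (Phi x p.2 q.1 / 2) • dl (p.1, q.2) := mulL_dl_dl _ _ _

theorem continuous_Phi (j k : ℕ) : Continuous fun x : ℕ → Bool => Phi x j k := by
  classical
  unfold Phi
  by_cases h : j = k
  · simp only [h, if_true]
    exact continuous_const
  · simp only [h, if_false]
    have h1 : IsClopen {x : ℕ → Bool | j < k ∧ x j = true ∧ x k = true ∧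
        ∀ i, j < i → i < k → x i = false} := by
      by_cases hjk : j < k
      · have : {x : ℕ → Bool | j < k ∧ x j = true ∧ x k = true ∧
            ∀ i, j < i → i < k → x i = false} =
            ((fun x : ℕ → Bool => x j) ⁻¹' {true} ∩ (fun x : ℕ → Bool => x k) ⁻¹' {true}) ∩
              ⋂ i ∈ Ioo j k, (fun x : ℕ → Bool => x i) ⁻¹' {false} := by
          ext x
          simp only [mem_ofPred_eq, hjk, true_and, mem_inter_iff, mem_preimage, mem_singleton_iff,
            mem_iInter, mem_Ioo, and_imp, and_assoc]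
        rw [this]
        refine IsClopen.inter (IsClopen.inter ?_ ?_) ?_
        · exact (isClopen_discrete _).preimage (continuous_apply j)
        · exact (isClopen_discrete _).preimage (continuous_apply k)
        · exact (finite_Ioo j k).isClopen_biInter fun i _ =>
            (isClopen_discrete _).preimage (continuous_apply i)
      · have : {x : ℕ → Bool | j < k ∧ x j = true ∧ x k = true ∧
            ∀ i, j < i → i < k → x i = false} = ∅ := by
          ext x
          simp [hjk]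
        rw [this]
        exact isClopen_empty
    refine Continuous.if (p := fun x : ℕ → Bool => j < k ∧ x j = true ∧ x k = true ∧
        ∀ i, j < i → i < k → x i = false) (fun x hx => ?_) continuous_const continuous_const
    rw [h1.frontier_eq] at hx
    exact absurd hx (notMem_empty _)

theorem continuous_m (p q : ℕ × ℕ) : Continuous fun x : ℕ → Bool => (munn x).m p q :=
  ((continuous_Phi p.2 q.1).div_const 2).smul continuous_const

theorem continuous_mulL_const (a b : L1 (ℕ × ℕ)) :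
    Continuous fun x : ℕ → Bool => mulL (munn x).toSC a b := by
  have h1 : ∀ x : ℕ → Bool, ∀ i, ‖mulL (munn x).toSC (dl i) b‖ ≤ ‖b‖ := by
    intro x i
    have := norm_mulL_le (munn x).toSC (dl i) b
    rwa [norm_dl, one_mul] at this
  have h2 : ∀ x : ℕ → Bool, mulL (munn x).toSC a b =
      lift (fun i => mulL (munn x).toSC (dl i) b) ‖b‖ (h1 x) a := by
    intro x
    have : (mulL (munn x).toSC).flip b = lift (fun i => mulL (munn x).toSC (dl i) b) ‖b‖ (h1 x) :=
      ext_dl fun i => by rw [lift_dl]; rfl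
    exact DFunLike.congr_fun this a
  simp only [h2]
  refine continuous_lift _ h1 (fun i => ?_) a
  simp only [mulL_dl]
  exact continuous_lift _ (fun x j => (munn x).le i j) (fun j => continuous_m i j) b

theorem continuous_mulL {u v : (ℕ → Bool) → L1 (ℕ × ℕ)} (hu : Continuous u) (hv : Continuous v) :
    Continuous fun x => mulL (munn x).toSC (u x) (v x) := by
  rw [continuous_iff_continuousAt]
  intro x0
  show Tendsto (fun x => mulL (munn x).toSC (u x) (v x)) (𝓝 x0)
    (𝓝 (mulL (munn x0).toSC (u x0) (v x0)))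
  rw [tendsto_iff_norm_sub_tendsto_zero]
  have hb : ∀ x, ‖mulL (munn x).toSC (u x) (v x) - mulL (munn x0).toSC (u x0) (v x0)‖ ≤
      ‖u x - u x0‖ * ‖v x‖ + ‖u x0‖ * ‖v x - v x0‖ +
        ‖mulL (munn x).toSC (u x0) (v x0) - mulL (munn x0).toSC (u x0) (v x0)‖ := by
    intro x
    have e : mulL (munn x).toSC (u x) (v x) - mulL (munn x0).toSC (u x0) (v x0) =
        mulL (munn x).toSC (u x - u x0) (v x) + mulL (munn x).toSC (u x0) (v x - v x0) +
          (mulL (munn x).toSC (u x0) (v x0) - mulL (munn x0).toSC (u x0) (v x0)) := by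
      have e1 : mulL (munn x).toSC (u x - u x0) (v x) =
          mulL (munn x).toSC (u x) (v x) - mulL (munn x).toSC (u x0) (v x) := by
        rw [map_sub]; rfl
      rw [e1, map_sub]
      abel
    rw [e]
    refine (norm_add₃_le).trans ?_
    gcongr
    · exact norm_mulL_le _ _ _
    · exact norm_mulL_le _ _ _
  refine squeeze_zero (fun _ => norm_nonneg _) hb ?_
  have hu1 : Tendsto (fun x => ‖u x - u x0‖) (𝓝 x0) (𝓝 0) := by
    have := (hu.sub (continuous_const (y := u x0))).norm.tendsto x0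
    simpa using this
  have hv1 : Tendsto (fun x => ‖v x - v x0‖) (𝓝 x0) (𝓝 0) := by
    have := (hv.sub (continuous_const (y := v x0))).norm.tendsto x0
    simpa using this
  have hv2 : Tendsto (fun x => ‖v x‖) (𝓝 x0) (𝓝 ‖v x0‖) := hv.norm.tendsto x0
  have h3 : Tendsto (fun x => ‖mulL (munn x).toSC (u x0) (v x0) -
      mulL (munn x0).toSC (u x0) (v x0)‖) (𝓝 x0) (𝓝 0) := by
    have := ((continuous_mulL_const (u x0) (v x0)).sub
      (continuous_const (y := mulL (munn x0).toSC (u x0) (v x0)))).norm.tendsto x0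
    simpa using this
  have h4 := ((hu1.mul hv2).add (hv1.const_mul ‖u x0‖)).add h3
  simpa using h4

theorem continuous_gen (u : ℕ → L1 (ℕ × ℕ)) (s : FreeSemigroup ℕ) :
    Continuous fun x : ℕ → Bool => (gen (B := MA x) u s : L1 (ℕ × ℕ)) := by
  induction s using FreeSemigroup.recOnMul with
  | ih1 n =>
    have : (fun x : ℕ → Bool => (gen (B := MA x) u (FreeSemigroup.of n) : L1 (ℕ × ℕ))) =
        fun _ => u n := by
      funext x
      exact gen_of (B := MA x) u n
    rw [this]
    exact continuous_const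
  | ih2 n s h1 h2 =>
    have : (fun x : ℕ → Bool => (gen (B := MA x) u (FreeSemigroup.of n * s) : L1 (ℕ × ℕ))) =
        fun x => mulL (munn x).toSC (gen (B := MA x) u (FreeSemigroup.of n) : L1 (ℕ × ℕ))
          (gen (B := MA x) u s : L1 (ℕ × ℕ)) := by
      funext x
      exact map_mul (gen (B := MA x) u) _ _
    rw [this]
    exact continuous_mulL h1 h2

end Pool.Agent.V11256.MunnA
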