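import Mathlib
import Pool.Agent.TH723.BI.Unif

/-!
# A continuous surjection of the Baire space without a Borel right inverse
-/

namespace Pool.Agent.V11256.NoUnif

open Set MeasureTheory Pool.Agent.TH723.BI

/-- `c` is not a code of a Borel set. -/
def NC (c : Baire) : Prop := ∀ B, ¬ IsCode UB c B

theorem NC.ne_zero {c : Baire} (h : NC c) : c 0 ≠ 0 := fun h0 => h _ (IsCode.leaf c h0)

theorem NC.exists_sub {c : Baire} (h : NC c) : ∃ n, NC (sub c n) := by
  by_contra hcon
  simp only [NC, not_exists, not_forall, not_not] at hcon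
  choose B hB using hcon
  exact h _ (IsCode.node c h.ne_zero B hB)

theorem exists_map {c : Baire} (h : NC c) : ∃ m, MapTo univ c m := by
  have hne : ∀ c : {c : Baire // NC c}, ∃ n, NC (sub c.1 n) := fun c => c.2.exists_sub
  choose nx hnx using hne
  let st : ℕ → {c : Baire // NC c} := fun j => Nat.rec ⟨c, h⟩ (fun _ s => ⟨sub s.1 (nx s), hnx s⟩) j
  have hst : ∀ j, (st (j + 1)).1 = sub (st j).1 (nx (st j)) := fun j => rfl
  have key : ∀ (t : List ℕ) (j : ℕ), walk (st j).1 (fun t' => nx (st (j + t'.length - 1))) t =
      (st (j + t.length)).1 := by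
    intro t
    induction t with
    | nil => intro j; rfl
    | cons k t ih =>
      intro j
      show walk (sub (st j).1 (nx (st (j + 1 - 1))))
        (fun t' => nx (st (j + (k :: t').length - 1))) t = _
      have e1 : (fun t' : List ℕ => nx (st (j + (k :: t').length - 1))) =
          fun t' => nx (st ((j + 1) + t'.length - 1)) := by
        funext t'
        have : j + (k :: t').length - 1 = (j + 1) + t'.length - 1 := by
          rw [List.length_cons]; omega
        rw [this]
      have e2 : j + 1 + t.length = j + (k :: t).length := by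
        rw [List.length_cons]; omega
      rw [e1, Nat.add_sub_cancel, ← hst, ih (j + 1), e2]
  refine ⟨fun t' => nx (st (0 + t'.length - 1)), fun t k _ => ?_⟩
  have h1 := key t 0
  have h2 : walk c (fun t' => nx (st (0 + t'.length - 1))) t = (st (0 + t.length)).1 := h1
  rw [h2]
  exact (st _).2.ne_zero

theorem polish_inst : PolishSpace (Baire × Z) ∧ BorelSpace (Baire × Z) := by
  have i1 : SecondCountableTopology Z := inferInstance
  have i2 : TopologicalSpace.IsCompletelyMetrizableSpace Z := inferInstance
  have s0 : SecondCountableTopology ((List ℕ → Bool) × (List ℕ → ℕ)) := inferInstance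
  have s1 : SecondCountableTopology (Bool × (List ℕ → Bool) × (List ℕ → ℕ)) := inferInstance
  have b0 : BorelSpace ((List ℕ → Bool) × (List ℕ → ℕ)) := inferInstance
  have b1 : BorelSpace (Bool × (List ℕ → Bool) × (List ℕ → ℕ)) := inferInstance
  have i3 : BorelSpace Z := inferInstance
  have i6 : TopologicalSpace.SeparableSpace (Baire × Z) := inferInstance
  have i7 : TopologicalSpace.IsCompletelyMetrizableSpace (Baire × Z) := inferInstance
  have i4 : PolishSpace (Baire × Z) := inferInstance
  have i5 : BorelSpace (Baire × Z) := Prod.borelSpace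
  exact ⟨i4, i5⟩

theorem exists_surj : ∃ g : Baire → Baire, Continuous g ∧ Function.Surjective g ∧
    ¬ ∃ s : Baire → Baire, Measurable s ∧ ∀ x, g (s x) = x := by
  let T : Unit → Baire → Set (List ℕ) := fun _ _ => univ
  have hFm : MeasurableSet (F T) := measurableSet_F fun t => by simp [T]
  have hPm : MeasurableSet {p : Baire × Z | ((), p) ∈ F T} := by
    have h1 : Measurable fun p : Baire × Z => (((), p) : Unit × Baire × Z) := by fun_prop
    exact h1 hFm
  have hne : ∀ c : Baire, ∃ z : Z, ((), c, z) ∈ F T := by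
    intro c
    by_cases hc : NC c
    · obtain ⟨m, hm⟩ := exists_map hc
      exact ⟨(fun _ => 0, false, fun _ => false, m), Or.inr hm⟩
    · simp only [NC, not_forall, not_not] at hc
      obtain ⟨B, hB⟩ := hc
      obtain ⟨e, he⟩ := exists_EV hB c
      refine ⟨(fun _ => 0, !(e []), e, fun _ => 0), Or.inl ⟨he, ?_⟩⟩
      show e [] ≠ !(e [])
      cases e [] <;> simp
  have hno := no_unif (T := T) (a := ()) fun y => ⟨fun _ => 0, fun n => mem_univ _⟩
  obtain ⟨i1, i2⟩ := polish_inst
  have hA := hPm.analyticSet
  rw [AnalyticSet] at hA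
  rcases hA with hA | ⟨g, hg, hgr⟩
  · exfalso
    obtain ⟨z, hz⟩ := hne fun _ => 0
    have : ((fun _ => 0, z) : Baire × Z) ∈ {p : Baire × Z | ((), p) ∈ F T} := hz
    rw [hA] at this
    exact this
  · refine ⟨fun w => (g w).1, continuous_fst.comp hg, fun c => ?_, ?_⟩
    · obtain ⟨z, hz⟩ := hne c
      have : ((c, z) : Baire × Z) ∈ range g := by rw [hgr]; exact hz
      obtain ⟨w, hw⟩ := this
      exact ⟨w, congrArg Prod.fst hw⟩
    · rintro ⟨s, hs, hsx⟩
      apply hno
      refine ⟨fun x => (g (s x)).2, (measurable_snd.comp hg.measurable).comp hs, fun c => ?_⟩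
      have h1 : g (s c) ∈ {p : Baire × Z | ((), p) ∈ F T} := by
        rw [← hgr]
        exact ⟨s c, rfl⟩
      have h2 : g (s c) = (c, (g (s c)).2) := Prod.ext (hsx c) rfl
      rw [h2] at h1
      exact h1

end Pool.Agent.V11256.NoUnif
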