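import Pool.Agent.V11256.Rado

/-!
# The space of graphs on `ℤ`: genericity
-/

namespace Pool.Agent.V11256.Dist

open Set Topology Filter MeasureTheory Pool.Agent.V11256.Rado

/-- Codes of graphs on `ℤ`. -/
abbrev Om : Type := ℤ × ℤ → Bool

/-- The graph on `ℤ` coded by `x`. -/
def adj (x : Om) (i j : ℤ) : Prop := i ≠ j ∧ x (min i j, max i j) = true

/-- The shift. -/
def sh (k : ℤ) (x : Om) : Om := fun p => x (p.1 + k, p.2 + k)

theorem adj_symm (x : Om) (i j : ℤ) (h : adj x i j) : adj x j i :=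
  ⟨h.1.symm, by rw [min_comm, max_comm]; exact h.2⟩

theorem adj_irr (x : Om) (i : ℤ) : ¬ adj x i i := fun h => h.1 rfl

theorem adj_sh (x : Om) (k i j : ℤ) : adj (sh k x) i j ↔ adj x (i + k) (j + k) := by
  unfold adj sh
  rw [min_add_add_right, max_add_add_right]
  simp

theorem sh_sh (k l : ℤ) (x : Om) : sh k (sh l x) = sh (k + l) x := by
  funext p
  simp [sh, add_assoc]

theorem sh_zero (x : Om) : sh 0 x = x := by
  funext p
  simp [sh]

theorem continuous_sh (k : ℤ) : Continuous (sh k) :=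
  continuous_pi fun p => continuous_apply _

/-- The shift as a homeomorphism. -/
def shH (k : ℤ) : Om ≃ₜ Om where
  toFun := sh k
  invFun := sh (-k)
  left_inv x := by rw [sh_sh, neg_add_cancel, sh_zero]
  right_inv x := by rw [sh_sh, add_neg_cancel, sh_zero]
  continuous_toFun := continuous_sh k
  continuous_invFun := continuous_sh (-k)

/-- The vertex set: codes of graphs with the extension property that are not periodic. -/
def V : Set Om := {x | (∀ k : ℤ, k ≠ 0 → sh k x ≠ x) ∧ Ext (adj x)}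

theorem isOpen_adj (i j : ℤ) : IsOpen {x : Om | adj x i j} := by
  by_cases h : i = j
  · have : {x : Om | adj x i j} = ∅ := by
      ext x
      simp [adj, h]
    rw [this]
    exact isOpen_empty
  · have : {x : Om | adj x i j} = (fun x : Om => x (min i j, max i j)) ⁻¹' {true} := by
      ext x
      simp [adj, h]
    rw [this]
    exact (isOpen_discrete _).preimage (continuous_apply _)

theorem isOpen_nadj (i j : ℤ) : IsOpen {x : Om | ¬ adj x i j} := by
  by_cases h : i = j
  · have : {x : Om | ¬ adj x i j} = univ := by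
      ext x
      simp [adj, h]
    rw [this]
    exact isOpen_univ
  · have : {x : Om | ¬ adj x i j} = (fun x : Om => x (min i j, max i j)) ⁻¹' {false} := by
      ext x
      simp [adj, h]
    rw [this]
    exact (isOpen_discrete _).preimage (continuous_apply _)

/-- The set of `x` such that some vertex `k` whose shift lies in `U` has the prescribed
adjacencies. -/
def D (U : Set Om) (A B : Finset ℤ) : Set Om :=
  {x | ∃ k, k ∉ A ∧ k ∉ B ∧ sh k x ∈ U ∧ (∀ a ∈ A, adj x k a) ∧ ∀ b ∈ B, ¬ adj x k b}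

theorem isOpen_D {U : Set Om} (hU : IsOpen U) (A B : Finset ℤ) : IsOpen (D U A B) := by
  have : D U A B = ⋃ k : {k : ℤ // k ∉ A ∧ k ∉ B},
      ((sh k ⁻¹' U) ∩ (⋂ a ∈ A, {x | adj x k a}) ∩ ⋂ b ∈ B, {x | ¬ adj x k b}) := by
    ext x
    simp only [D, mem_ofPred_eq, mem_iUnion, mem_inter_iff, mem_preimage, mem_iInter, Subtype.exists]
    constructor
    · rintro ⟨k, h1, h2, h3, h4, h5⟩
      exact ⟨k, ⟨h1, h2⟩, ⟨h3, h4⟩, h5⟩
    · rintro ⟨k, ⟨h1, h2⟩, ⟨h3, h4⟩, h5⟩
      exact ⟨k, h1, h2, h3, h4, h5⟩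
  rw [this]
  refine isOpen_iUnion fun k => IsOpen.inter (IsOpen.inter (hU.preimage (continuous_sh _)) ?_) ?_
  · exact isOpen_biInter_finset fun a _ => isOpen_adj _ _
  · exact isOpen_biInter_finset fun a _ => isOpen_nadj _ _

theorem cyl {W : Set Om} (hW : IsOpen W) {x0 : Om} (hx0 : x0 ∈ W) :
    ∃ M : ℤ, 0 ≤ M ∧ ∀ x : Om, (∀ p : ℤ × ℤ, |p.1| ≤ M → |p.2| ≤ M → x p = x0 p) → x ∈ W := by
  rw [isOpen_pi_iff] at hW
  obtain ⟨F, u, hu, hF⟩ := hW x0 hx0
  obtain ⟨M, hM⟩ : ∃ M : ℤ, ∀ p ∈ F, |p.1| ≤ M ∧ |p.2| ≤ M := by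
    classical
    refine ⟨∑ p ∈ F, (|p.1| + |p.2|), fun p hp => ?_⟩
    have h1 : |p.1| + |p.2| ≤ ∑ p ∈ F, (|p.1| + |p.2|) :=
      Finset.single_le_sum (f := fun p : ℤ × ℤ => |p.1| + |p.2|)
        (fun q _ => by positivity) hp
    have h2 := abs_nonneg p.1
    have h3 := abs_nonneg p.2
    constructor <;> linarith
  refine ⟨max M 0, le_max_right _ _, fun x hx => hF ?_⟩
  intro p hp
  have := hM p hp
  rw [hx p (this.1.trans (le_max_left _ _)) (this.2.trans (le_max_left _ _))]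
  exact (hu p hp).2

theorem dense_D {U : Set Om} (hU : IsOpen U) (hne : U.Nonempty) (A B : Finset ℤ)
    (hAB : Disjoint A B) : Dense (D U A B) := by
  classical
  rw [dense_iff_inter_open]
  rintro W hW ⟨x0, hx0⟩
  obtain ⟨x1, hx1⟩ := hne
  obtain ⟨M1, hM1, hc1⟩ := cyl hW hx0
  obtain ⟨M2, hM2, hc2⟩ := cyl hU hx1
  obtain ⟨M3, hM3⟩ : ∃ M : ℤ, ∀ a ∈ A ∪ B, |a| ≤ M := by
    refine ⟨∑ a ∈ A ∪ B, |a|, fun a ha => ?_⟩
    exact Finset.single_le_sum (f := fun a : ℤ => |a|) (fun q _ => abs_nonneg q) ha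
  set M : ℤ := max (max M1 M2) (max M3 0) with hM
  have hM1' : M1 ≤ M := (le_max_left _ _).trans (le_max_left _ _)
  have hM2' : M2 ≤ M := (le_max_right _ _).trans (le_max_left _ _)
  have hM3' : M3 ≤ M := (le_max_left _ _).trans (le_max_right _ _)
  have hM0 : 0 ≤ M := (le_max_right _ _).trans (le_max_right _ _)
  set k : ℤ := 3 * M + 1 with hk
  let x : Om := fun p => if |p.1| ≤ M ∧ |p.2| ≤ M then x0 p else
    if M < p.1 ∧ M < p.2 then x1 (p.1 - k, p.2 - k) else decide (p.1 ∈ A)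
  have hxA : ∀ a ∈ A ∪ B, adj x k a ↔ a ∈ A := by
    intro a ha
    have h1 : |a| ≤ M := (hM3 a ha).trans hM3'
    rw [abs_le] at h1
    have h2 : a < k := by omega
    unfold adj
    rw [min_eq_right h2.le, max_eq_left h2.le]
    have e1 : ¬ (|a| ≤ M ∧ |k| ≤ M) := by
      rintro ⟨-, h⟩
      rw [abs_le] at h
      omega
    have e2 : ¬ (M < a ∧ M < k) := by
      rintro ⟨h, -⟩
      omega
    simp only [x, e1, e2, if_false, decide_eq_true_eq, and_iff_right_iff_imp]
    intro _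
    omega
  refine ⟨x, hc1 x fun p h1 h2 => ?_, k, ?_, ?_, hc2 _ fun p h1 h2 => ?_, ?_, ?_⟩
  · have : |p.1| ≤ M ∧ |p.2| ≤ M := ⟨h1.trans hM1', h2.trans hM1'⟩
    simp only [x, this, and_self, if_true]
  · intro hkA
    have := (hM3 k (Finset.mem_union_left _ hkA)).trans hM3'
    rw [abs_le] at this
    omega
  · intro hkB
    have := (hM3 k (Finset.mem_union_right _ hkB)).trans hM3'
    rw [abs_le] at this
    omega
  · have h1' := h1.trans hM2'
    have h2' := h2.trans hM2'
    rw [abs_le] at h1' h2'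
    have e1 : ¬ (|p.1 + k| ≤ M ∧ |p.2 + k| ≤ M) := by
      rintro ⟨h, -⟩
      rw [abs_le] at h
      omega
    have e2 : M < p.1 + k ∧ M < p.2 + k := by
      constructor <;> omega
    simp only [sh, x, e1, e2, if_false, and_self, if_true, add_sub_cancel_right]
  · intro a ha
    exact (hxA a (Finset.mem_union_left _ ha)).mpr ha
  · intro b hb h
    exact (Finset.disjoint_left.mp hAB) ((hxA b (Finset.mem_union_right _ hb)).mp h) hb

theorem D_residual {U : Set Om} (hU : IsOpen U) (hne : U.Nonempty) (A B : Finset ℤ)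
    (hAB : Disjoint A B) : D U A B ∈ residual Om :=
  residual_of_dense_open (isOpen_D hU A B) (dense_D hU hne A B hAB)

theorem dense_aper (k : ℤ) (hk : k ≠ 0) : Dense {x : Om | sh k x ≠ x} := by
  classical
  rw [dense_iff_inter_open]
  rintro W hW ⟨x0, hx0⟩
  obtain ⟨M, hM, hc⟩ := cyl hW hx0
  let i : ℤ := M + 1 + |k|
  have hi : M < i := by
    have := abs_nonneg k
    omega
  have hik : M < i + k := by
    have := neg_abs_le k
    omega
  let x : Om := fun p => if |p.1| ≤ M ∧ |p.2| ≤ M then x0 p else decide (p.1 = i)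
  refine ⟨x, hc x fun p h1 h2 => ?_, fun h => ?_⟩
  · simp only [x, h1, h2, and_self, if_true]
  · have h1 : sh k x (i, i) = x (i, i) := by rw [h]
    have e1 : ¬ (|i| ≤ M ∧ |i| ≤ M) := by
      rintro ⟨h, -⟩
      rw [abs_le] at h
      omega
    have e2 : ¬ (|i + k| ≤ M ∧ |i + k| ≤ M) := by
      rintro ⟨h, -⟩
      rw [abs_le] at h
      omega
    simp only [sh, x, e1, e2, if_false, decide_true, decide_eq_true_eq] at h1
    omega

theorem V_residual : V ∈ residual Om := by
  have h1 : ∀ᵇ x : Om, ∀ k : {k : ℤ // k ≠ 0}, sh k x ≠ x := by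
    rw [eventually_countable_forall]
    intro k
    refine residual_of_dense_open ?_ (dense_aper k k.2)
    exact isOpen_ne_fun (continuous_sh _) continuous_id
  have h2 : ∀ᵇ x : Om, ∀ p : {p : Finset ℤ × Finset ℤ // Disjoint p.1 p.2},
      x ∈ D univ p.1.1 p.1.2 := by
    rw [eventually_countable_forall]
    intro p
    exact D_residual isOpen_univ univ_nonempty _ _ p.2
  filter_upwards [h1, h2] with x hx1 hx2
  refine ⟨fun k hk => hx1 ⟨k, hk⟩, fun A B hAB => ?_⟩
  obtain ⟨k, hk1, hk2, -, hk3, hk4⟩ := hx2 ⟨(A, B), hAB⟩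
  exact ⟨k, hk1, hk2, hk3, hk4⟩

theorem measurableSet_V : MeasurableSet V := by
  have h1 : MeasurableSet {x : Om | ∀ k : ℤ, k ≠ 0 → sh k x ≠ x} := by
    have : {x : Om | ∀ k : ℤ, k ≠ 0 → sh k x ≠ x} = ⋂ k : {k : ℤ // k ≠ 0}, {x | sh k x ≠ x} := by
      ext x
      simp
    rw [this]
    exact MeasurableSet.iInter fun k => (isOpen_ne_fun (continuous_sh _) continuous_id).measurableSet
  have h2 : MeasurableSet {x : Om | Ext (adj x)} := by
    have : {x : Om | Ext (adj x)} =
        ⋂ p : {p : Finset ℤ × Finset ℤ // Disjoint p.1 p.2}, D univ p.1.1 p.1.2 := by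
      ext x
      simp only [mem_ofPred_eq, mem_iInter, D, mem_univ, true_and]
      constructor
      · intro h p
        exact h p.1.1 p.1.2 p.2
      · intro h A B hAB
        exact h ⟨(A, B), hAB⟩
    rw [this]
    exact MeasurableSet.iInter fun p => (isOpen_D isOpen_univ _ _).measurableSet
  exact h1.inter h2

theorem sh_mem_V (k : ℤ) {x : Om} (hx : x ∈ V) : sh k x ∈ V := by
  refine ⟨fun l hl h => ?_, fun A B hAB => ?_⟩
  · apply hx.1 l hl
    have h2 : sh (-k) (sh l (sh k x)) = sh (-k) (sh k x) := by rw [h]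
    rw [sh_sh, sh_sh, sh_sh] at h2
    have e1 : -k + l + k = l := by ring
    have e2 : -k + k = 0 := by ring
    rw [e1, e2, sh_zero] at h2
    exact h2
  · have hinj : Function.Injective (fun a : ℤ => a + k) := add_left_injective k
    have hd : Disjoint (A.map ⟨_, hinj⟩) (B.map ⟨_, hinj⟩) := by
      rw [Finset.disjoint_map]
      exact hAB
    obtain ⟨m, h1, h2, h3, h4⟩ := hx.2 _ _ hd
    refine ⟨m - k, fun h => h1 ?_, fun h => h2 ?_, fun a ha => ?_, fun b hb hab => ?_⟩
    · exact Finset.mem_map.mpr ⟨m - k, h, by simp⟩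
    · exact Finset.mem_map.mpr ⟨m - k, h, by simp⟩
    · rw [adj_sh, sub_add_cancel]
      exact h3 _ (Finset.mem_map.mpr ⟨a, ha, rfl⟩)
    · rw [adj_sh, sub_add_cancel] at hab
      exact h4 _ (Finset.mem_map.mpr ⟨b, hb, rfl⟩) hab

theorem sh_inj {x : Om} (hx : x ∈ V) {i j : ℤ} (h : sh i x = sh j x) : i = j := by
  by_contra hij
  apply hx.1 (i - j) (sub_ne_zero.mpr hij)
  have h2 : sh (-j) (sh i x) = sh (-j) (sh j x) := by rw [h]
  rw [sh_sh, sh_sh, neg_add_cancel, sh_zero, neg_add_eq_sub] at h2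
  exact h2

end Pool.Agent.V11256.Dist
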