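import Mathlib

/-!
# Combinatorics of (coloured) graphs with the extension property
-/

namespace Pool.Agent.V11256.Rado

open Set

section BackAndForth

variable {α I : Type*} (r : α → α → Prop) (γ : α → I)

/-- The coloured extension property. -/
def CExt : Prop :=
  ∀ (A B : Finset α), Disjoint A B → ∀ c : α, ∃ k, k ∉ A ∧ k ∉ B ∧ γ k = γ c ∧
    (∀ a ∈ A, r k a) ∧ ∀ b ∈ B, ¬ r k b

/-- Finite partial isomorphisms. -/
def PIso : Type _ :=
  {p : Finset (α × α) // ∀ q ∈ p, γ q.1 = γ q.2 ∧ ∀ q' ∈ p,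
    (q.1 = q'.1 ↔ q.2 = q'.2) ∧ (r q.1 q'.1 ↔ r q.2 q'.2)}

instance : Preorder (PIso r γ) := Preorder.lift Subtype.val

variable {r γ}

theorem PIso.le_iff {p q : PIso r γ} : p ≤ q ↔ p.1 ⊆ q.1 := Iff.rfl

theorem forth (hsymm : ∀ a b, r a b → r b a) (hirr : ∀ a, ¬ r a a) (h : CExt r γ)
    (p : PIso r γ) (x : α) : ∃ q : PIso r γ, p ≤ q ∧ ∃ y, (x, y) ∈ q.1 := by
  classical
  by_cases hx : ∃ y, (x, y) ∈ p.1
  · exact ⟨p, le_refl p, hx⟩
  push Not at hx
  let A : Finset α := (p.1.filter (fun q => r x q.1)).image Prod.snd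
  let B : Finset α := (p.1.filter (fun q => ¬ r x q.1)).image Prod.snd
  have hdis : Disjoint A B := by
    rw [Finset.disjoint_left]
    intro y hA hB
    simp only [A, B, Finset.mem_image, Finset.mem_filter] at hA hB
    obtain ⟨q, ⟨hq, hrq⟩, rfl⟩ := hA
    obtain ⟨q', ⟨hq', hrq'⟩, he⟩ := hB
    have := ((p.2 q' hq').2 q hq).1.mpr he
    rw [this] at hrq'
    exact hrq' hrq
  obtain ⟨k, hkA, hkB, hkγ, hk1, hk2⟩ := h A B hdis x
  have hnew : ∀ q ∈ p.1, (x = q.1 ↔ k = q.2) ∧ (r x q.1 ↔ r k q.2) := by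
    intro q hq
    have h1 : x ≠ q.1 := by
      rintro rfl
      exact hx q.2 hq
    by_cases hr : r x q.1
    · have hA : q.2 ∈ A := by
        simp only [A, Finset.mem_image, Finset.mem_filter]
        exact ⟨q, ⟨hq, hr⟩, rfl⟩
      refine ⟨⟨fun h => absurd h h1, ?_⟩, ⟨fun _ => hk1 _ hA, fun _ => hr⟩⟩
      rintro rfl
      exact absurd hA hkA
    · have hB : q.2 ∈ B := by
        simp only [B, Finset.mem_image, Finset.mem_filter]
        exact ⟨q, ⟨hq, hr⟩, rfl⟩
      refine ⟨⟨fun h => absurd h h1, ?_⟩, ⟨fun h => absurd h hr, fun h => absurd h (hk2 _ hB)⟩⟩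
      rintro rfl
      exact absurd hB hkB
  refine ⟨⟨insert (x, k) p.1, ?_⟩, Finset.subset_insert _ _, k, Finset.mem_insert_self _ _⟩
  intro q hq
  rcases Finset.mem_insert.mp hq with rfl | hq
  · refine ⟨hkγ.symm, fun q' hq' => ?_⟩
    rcases Finset.mem_insert.mp hq' with rfl | hq'
    · exact ⟨⟨fun _ => rfl, fun _ => rfl⟩, ⟨fun h => absurd h (hirr _), fun h => absurd h (hirr _)⟩⟩
    · exact hnew q' hq'
  · refine ⟨(p.2 q hq).1, fun q' hq' => ?_⟩
    rcases Finset.mem_insert.mp hq' with rfl | hq'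
    · obtain ⟨h1, h2⟩ := hnew q hq
      refine ⟨⟨fun h => (h1.mp h.symm).symm, fun h => (h1.mpr h.symm).symm⟩,
        ⟨fun h => hsymm _ _ (h2.mp (hsymm _ _ h)), fun h => hsymm _ _ (h2.mpr (hsymm _ _ h))⟩⟩
    · exact (p.2 q hq).2 q' hq'

/-- The inverse of a partial isomorphism. -/
def PIso.inv [DecidableEq α] (p : PIso r γ) : PIso r γ :=
  ⟨p.1.image Prod.swap, by
    intro q hq
    obtain ⟨q0, hq0, rfl⟩ := Finset.mem_image.mp hq
    refine ⟨(p.2 q0 hq0).1.symm, fun q' hq' => ?_⟩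
    obtain ⟨q1, hq1, rfl⟩ := Finset.mem_image.mp hq'
    obtain ⟨h1, h2⟩ := (p.2 q0 hq0).2 q1 hq1
    exact ⟨h1.symm, h2.symm⟩⟩

theorem back (hsymm : ∀ a b, r a b → r b a) (hirr : ∀ a, ¬ r a a) (h : CExt r γ)
    (p : PIso r γ) (y : α) : ∃ q : PIso r γ, p ≤ q ∧ ∃ x, (x, y) ∈ q.1 := by
  classical
  obtain ⟨q, hq, x, hx⟩ := forth hsymm hirr h p.inv y
  refine ⟨q.inv, ?_, x, Finset.mem_image.mpr ⟨(y, x), hx, rfl⟩⟩
  intro z hz
  refine Finset.mem_image.mpr ⟨z.swap, hq (Finset.mem_image.mpr ⟨z, hz, rfl⟩), Prod.swap_swap z⟩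

/-- Homogeneity: every colour preserving map of a single point extends to an automorphism. -/
theorem exists_aut [Countable α] (hsymm : ∀ a b, r a b → r b a) (hirr : ∀ a, ¬ r a a)
    (h : CExt r γ) (a b : α) (hab : γ a = γ b) :
    ∃ f : α ≃ α, (∀ x y, r x y ↔ r (f x) (f y)) ∧ (∀ x, γ (f x) = γ x) ∧ f a = b := by
  classical
  have _ : Encodable α := Encodable.ofCountable α
  let p0 : PIso r γ := ⟨{(a, b)}, by
    intro q hq
    rw [Finset.mem_singleton] at hq
    subst hq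
    refine ⟨hab, fun q' hq' => ?_⟩
    rw [Finset.mem_singleton] at hq'
    subst hq'
    exact ⟨⟨fun _ => rfl, fun _ => rfl⟩, ⟨fun h => absurd h (hirr _), fun h => absurd h (hirr _)⟩⟩⟩
  let D : α ⊕ α → Order.Cofinal (PIso r γ) := fun i =>
    match i with
    | Sum.inl x => ⟨{q | ∃ y, (x, y) ∈ q.1}, fun p => by
        obtain ⟨q, h1, h2⟩ := forth hsymm hirr h p x
        exact ⟨q, h2, h1⟩⟩
    | Sum.inr y => ⟨{q | ∃ x, (x, y) ∈ q.1}, fun p => by
        obtain ⟨q, h1, h2⟩ := back hsymm hirr h p y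
        exact ⟨q, h2, h1⟩⟩
  let J := Order.idealOfCofinals p0 D
  have hJ : ∀ q q' : α × α, (∃ p ∈ J, q ∈ p.1) → (∃ p ∈ J, q' ∈ p.1) →
      (q.1 = q'.1 ↔ q.2 = q'.2) ∧ (r q.1 q'.1 ↔ r q.2 q'.2) ∧ γ q.1 = γ q.2 := by
    rintro q q' ⟨p, hp, hq⟩ ⟨p', hp', hq'⟩
    obtain ⟨m, -, hm1, hm2⟩ := J.directed p hp p' hp'
    have h1 := (m.2 q (hm1 hq)).2 q' (hm2 hq')
    exact ⟨h1.1, h1.2, (m.2 q (hm1 hq)).1⟩
  have hf : ∀ x, ∃ y, ∃ p ∈ J, (x, y) ∈ p.1 := by
    intro x
    obtain ⟨q, hq1, hq2⟩ := Order.cofinal_meets_idealOfCofinals p0 D (Sum.inl x)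
    obtain ⟨y, hy⟩ := hq1
    exact ⟨y, q, hq2, hy⟩
  have hg : ∀ y, ∃ x, ∃ p ∈ J, (x, y) ∈ p.1 := by
    intro y
    obtain ⟨q, hq1, hq2⟩ := Order.cofinal_meets_idealOfCofinals p0 D (Sum.inr y)
    obtain ⟨x, hx⟩ := hq1
    exact ⟨x, q, hq2, hx⟩
  choose f hf using hf
  choose g hg using hg
  let e : α ≃ α :=
    { toFun := f
      invFun := g
      left_inv := fun x => ((hJ (g (f x), f x) (x, f x) (hg (f x)) (hf x)).1).mpr rfl
      right_inv := fun y => ((hJ (g y, f (g y)) (g y, y) (hf (g y)) (hg y)).1).mp rfl }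
  refine ⟨e, fun x y => (hJ (x, f x) (y, f y) (hf x) (hf y)).2.1,
    fun x => (hJ (x, f x) (x, f x) (hf x) (hf x)).2.2.symm, ?_⟩
  have h0 : ∃ p ∈ J, (a, b) ∈ p.1 :=
    ⟨p0, Order.mem_idealOfCofinals p0 D, Finset.mem_singleton_self _⟩
  exact ((hJ (a, f a) (a, b) (hf a) h0).1).mp rfl

end BackAndForth

section Ray

variable {α : Type*} (r : α → α → Prop)

/-- The extension property. -/
def Ext : Prop :=
  ∀ (A B : Finset α), Disjoint A B → ∃ k, k ∉ A ∧ k ∉ B ∧ (∀ a ∈ A, r k a) ∧ ∀ b ∈ B, ¬ r k b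

variable {r}

/-- There is an induced one-way infinite path whose vertices separate the other vertices. -/
theorem exists_ray [Countable α] [Nonempty α] (hsymm : ∀ a b, r a b → r b a) (h : Ext r) :
    ∃ a : ℕ → α, Function.Injective a ∧ (∀ m n, m < n → (r (a n) (a m) ↔ n = m + 1)) ∧
      ∀ u v, u ∉ range a → v ∉ range a → u ≠ v → ∃ n, r (a n) u ∧ ¬ r (a n) v := by
  classical
  obtain ⟨e, he⟩ := exists_surjective_nat (α × α)
  have hgood : ∀ (n : ℕ) (f : ℕ → α), (∀ i < n, ∀ j < n, f i = f j → i = j) →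
      ∃ k, (∀ m < n, k ≠ f m ∧ (r k (f m) ↔ n = m + 1)) ∧
        ((e n).1 ≠ (e n).2 → (∀ m < n, (e n).1 ≠ f m) → (∀ m < n, (e n).2 ≠ f m) →
          r k (e n).1 ∧ ¬ r k (e n).2) := by
    intro n f hf
    let A0 : Finset α := ((Finset.range n).filter (fun m => n = m + 1)).image f
    let B0 : Finset α := ((Finset.range n).filter (fun m => ¬ n = m + 1)).image f
    have hd0 : Disjoint A0 B0 := by
      rw [Finset.disjoint_left]
      intro y hA hB
      simp only [A0, B0, Finset.mem_image, Finset.mem_filter, Finset.mem_range] at hA hB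
      obtain ⟨i, ⟨hi, hi'⟩, rfl⟩ := hA
      obtain ⟨j, ⟨hj, hj'⟩, he'⟩ := hB
      have := hf j hj i hi he'
      rw [this] at hj'
      exact hj' hi'
    have hA0 : ∀ m < n, n = m + 1 → f m ∈ A0 := fun m hm hm' =>
      Finset.mem_image.mpr ⟨m, Finset.mem_filter.mpr ⟨Finset.mem_range.mpr hm, hm'⟩, rfl⟩
    have hB0 : ∀ m < n, ¬ n = m + 1 → f m ∈ B0 := fun m hm hm' =>
      Finset.mem_image.mpr ⟨m, Finset.mem_filter.mpr ⟨Finset.mem_range.mpr hm, hm'⟩, rfl⟩
    by_cases hc : (e n).1 ≠ (e n).2 ∧ (∀ m < n, (e n).1 ≠ f m) ∧ (∀ m < n, (e n).2 ≠ f m)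
    · obtain ⟨hc1, hc2, hc3⟩ := hc
      have hd : Disjoint (insert (e n).1 A0) (insert (e n).2 B0) := by
        rw [Finset.disjoint_insert_left, Finset.disjoint_insert_right]
        refine ⟨?_, ?_, hd0⟩
        · rw [Finset.mem_insert]
          rintro (h1 | h1)
          · exact hc1 h1
          · simp only [B0, Finset.mem_image, Finset.mem_filter, Finset.mem_range] at h1
            obtain ⟨i, ⟨hi, -⟩, hi2⟩ := h1
            exact hc2 i hi hi2.symm
        · intro h1
          simp only [A0, Finset.mem_image, Finset.mem_filter, Finset.mem_range] at h1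
          obtain ⟨i, ⟨hi, -⟩, hi2⟩ := h1
          exact hc3 i hi hi2.symm
      obtain ⟨k, hkA, hkB, hk1, hk2⟩ := h _ _ hd
      refine ⟨k, fun m hm => ?_, fun _ _ _ =>
        ⟨hk1 _ (Finset.mem_insert_self _ _), hk2 _ (Finset.mem_insert_self _ _)⟩⟩
      by_cases hm' : n = m + 1
      · have h1 : f m ∈ insert (e n).1 A0 := Finset.mem_insert_of_mem (hA0 m hm hm')
        refine ⟨?_, ⟨fun _ => hm', fun _ => hk1 _ h1⟩⟩
        rintro rfl
        exact hkA h1
      · have h1 : f m ∈ insert (e n).2 B0 := Finset.mem_insert_of_mem (hB0 m hm hm')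
        refine ⟨?_, ⟨fun h2 => absurd h2 (hk2 _ h1), fun h2 => absurd h2 hm'⟩⟩
        rintro rfl
        exact hkB h1
    · obtain ⟨k, hkA, hkB, hk1, hk2⟩ := h _ _ hd0
      refine ⟨k, fun m hm => ?_, fun h1 h2 h3 => absurd ⟨h1, h2, h3⟩ hc⟩
      by_cases hm' : n = m + 1
      · have h1 := hA0 m hm hm'
        refine ⟨?_, ⟨fun _ => hm', fun _ => hk1 _ h1⟩⟩
        rintro rfl
        exact hkA h1
      · have h1 := hB0 m hm hm'
        refine ⟨?_, ⟨fun h2 => absurd h2 (hk2 _ h1), fun h2 => absurd h2 hm'⟩⟩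
        rintro rfl
        exact hkB h1
  -- the recursion
  let P : ℕ → (ℕ → α) → α → Prop := fun n f k =>
    (∀ m < n, k ≠ f m ∧ (r k (f m) ↔ n = m + 1)) ∧
        ((e n).1 ≠ (e n).2 → (∀ m < n, (e n).1 ≠ f m) → (∀ m < n, (e n).2 ≠ f m) →
          r k (e n).1 ∧ ¬ r k (e n).2)
  let pick : ℕ → (ℕ → α) → α := fun n f => if h : ∃ k, P n f k then h.choose else Classical.arbitrary α
  let L : ℕ → (ℕ → α) := fun n => Nat.rec (fun _ => Classical.arbitrary α)
    (fun n f => Function.update f n (pick n f)) n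
  have hL : ∀ n, L (n + 1) = Function.update (L n) n (pick n (L n)) := fun n => rfl
  let a : ℕ → α := fun n => L (n + 1) n
  have ha : ∀ n, a n = pick n (L n) := by
    intro n
    show L (n + 1) n = _
    rw [hL, Function.update_self]
  have hLa : ∀ n m, m < n → L n m = a m := by
    intro n
    induction n with
    | zero => intro m hm; exact absurd hm (Nat.not_lt_zero m)
    | succ n ih =>
      intro m hm
      rcases Nat.lt_succ_iff_lt_or_eq.mp hm with h1 | rfl
      · rw [hL, Function.update_of_ne (Nat.ne_of_lt h1), ih m h1]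
      · rfl
  have hP : ∀ n, P n (L n) (a n) := by
    intro n
    induction n using Nat.strong_induction_on with
    | _ n ih =>
      have hinj : ∀ i < n, ∀ j < n, L n i = L n j → i = j := by
        intro i hi j hj hij
        rw [hLa n i hi, hLa n j hj] at hij
        rcases lt_trichotomy i j with h1 | h1 | h1
        · have := ((ih j hj).1 i h1).1
          rw [hLa j i h1] at this
          exact absurd hij.symm this
        · exact h1
        · have := ((ih i hi).1 j h1).1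
          rw [hLa i j h1] at this
          exact absurd hij this
      have hex : ∃ k, P n (L n) k := hgood n (L n) hinj
      have hpk : pick n (L n) = hex.choose := dif_pos hex
      rw [ha, hpk]
      exact hex.choose_spec
  have hP' : ∀ n m, m < n → a n ≠ a m ∧ (r (a n) (a m) ↔ n = m + 1) := by
    intro n m hmn
    have := (hP n).1 m hmn
    rwa [hLa n m hmn] at this
  refine ⟨a, ?_, fun m n hmn => (hP' n m hmn).2, ?_⟩
  · intro i j hij
    rcases lt_trichotomy i j with h1 | h1 | h1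
    · exact absurd hij.symm (hP' j i h1).1
    · exact h1
    · exact absurd hij (hP' i j h1).1
  · intro u v hu hv huv
    obtain ⟨n, hn⟩ := he (u, v)
    refine ⟨n, ?_⟩
    have := (hP n).2
    rw [hn] at this
    refine this huv (fun m hm => ?_) (fun m hm => ?_)
    · rw [hLa n m hm]
      rintro rfl
      exact hu ⟨m, rfl⟩
    · rw [hLa n m hm]
      rintro rfl
      exact hv ⟨m, rfl⟩

/-- The one-way infinite path has no nontrivial automorphism. -/
theorem ray_rigid (g : ℕ → ℕ) (hg : Function.Injective g) (hs : Function.Surjective g)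
    (h : ∀ m n, (m = n + 1 ∨ n = m + 1) ↔ (g m = g n + 1 ∨ g n = g m + 1)) : ∀ n, g n = n := by
  have h0 : g 0 = 0 := by
    by_contra h0
    obtain ⟨x, hx⟩ := hs (g 0 - 1)
    obtain ⟨y, hy⟩ := hs (g 0 + 1)
    have hx1 : (0 = x + 1 ∨ x = 0 + 1) := (h 0 x).mpr (by left; omega)
    have hy1 : (0 = y + 1 ∨ y = 0 + 1) := (h 0 y).mpr (by right; omega)
    have : x = y := by omega
    rw [this] at hx
    omega
  intro n
  induction n using Nat.strong_induction_on with
  | _ n ih =>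
    rcases n with _ | n
    · exact h0
    · have h1 := (h n (n + 1)).mp (Or.inr rfl)
      rw [ih n (Nat.lt_succ_self n)] at h1
      rcases h1 with h1 | h1
      · rcases n with _ | n
        · omega
        · have h2 := ih n (by omega)
          have h3 : g (n + 1 + 1) = g n := by omega
          have := hg h3
          omega
      · exact h1

end Ray

end Pool.Agent.V11256.Rado
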